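import Mathlib

/-!
Combinatorics on two-sided binary sequences for MP_977c67_al.

A line of a sequence `y` is the sequence of pairs `(y i, y j), (y (i+1), y (j-1)), ...`.
A pair is visible when its two letters agree.  We list finitely many patterns such that
every periodic sequence shows one of them on some line, while the sequence of last nonzero
ternary digits shows none of them on a line with `i + j > 0`.
-/

set_option autoImplicit false

namespace Pool.Agent.Lib.MP_977c67_al

/-- `V y lo p i j`: reading the pairs `(y i, y j), (y (i+1), y (j-1)), ...` one sees the pattern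
`p` as pairs of equal letters; if `lo` is true, pairs of unequal letters may be skipped. -/
inductive V (y : ℤ → Bool) (lo : Bool) : List Bool → ℤ → ℤ → Prop
  | nil (i j : ℤ) : V y lo [] i j
  | vis (a : Bool) (p : List Bool) (i j : ℤ) :
      y i = a → y j = a → V y lo p (i + 1) (j - 1) → V y lo (a :: p) i j
  | inv (p : List Bool) (i j : ℤ) :
      lo = true → y i ≠ y j → V y lo p (i + 1) (j - 1) → V y lo p i j

/-- Patterns that must be seen on consecutive pairs. -/
def strictPats : List (List Bool) :=
  [[true, true, true], [false, false, false], [false, false, true, true],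
    [true, false, true, false]]

/-- Patterns that must be seen on consecutive visible pairs. -/
def loosePats : List (List Bool) :=
  [[true, true, true, true], [false, false, false, false],
    [false, false, false, true, true, false, true, true, false],
    [false, true, true, false, false, true, true, false, false]]

def BadS (y : ℤ → Bool) : Prop := ∃ p ∈ strictPats, ∃ i j, V y false p i j

def BadL (y : ℤ → Bool) : Prop := ∃ p ∈ loosePats, ∃ i j, V y true p i j

def Good (y : ℤ → Bool) (a : Bool) : Prop := ∀ i : ℤ, y (3 * i + 1) = a ∧ y (3 * i + 2) = !a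

def der (y : ℤ → Bool) : ℤ → Bool := fun i => y (3 * i)

def shift (y : ℤ → Bool) (r : ℤ) : ℤ → Bool := fun t => y (t + r)

def Per (y : ℤ → Bool) (P : ℤ) : Prop := ∀ t m : ℤ, y (t + m * P) = y t

theorem V.congr {y : ℤ → Bool} {lo : Bool} {p : List Bool} {i j i' j' : ℤ}
    (h : V y lo p i j) (hi : i = i') (hj : j = j') : V y lo p i' j' := by
  subst hi hj; exact h

theorem Good.one {y : ℤ → Bool} {a : Bool} (h : Good y a) {t : ℤ} (ht : t % 3 = 1) : y t = a := by
  have := (h (t / 3)).1
  rwa [show 3 * (t / 3) + 1 = t by omega] at this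

theorem Good.two {y : ℤ → Bool} {a : Bool} (h : Good y a) {t : ℤ} (ht : t % 3 = 2) :
    y t = !a := by
  have := (h (t / 3)).2
  rwa [show 3 * (t / 3) + 2 = t by omega] at this

theorem V.shift {y : ℤ → Bool} {r : ℤ} {lo : Bool} {p : List Bool} {i j : ℤ}
    (h : V (shift y r) lo p i j) : V y lo p (i + r) (j + r) := by
  induction h with
  | nil i j => exact V.nil _ _
  | vis a p i j h1 h2 _ ih => exact V.vis a p _ _ h1 h2 (ih.congr (by ring) (by ring))
  | inv p i j h0 h1 _ ih => exact V.inv p _ _ h0 h1 (ih.congr (by ring) (by ring))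

theorem V.skip {y : ℤ → Bool} {a : Bool} (hg : Good y a) {p : List Bool} {i j : ℤ}
    (h : V y true p (3 * (i + 1)) (3 * (j - 1))) : V y true p (3 * i + 1) (3 * j - 1) := by
  refine V.inv _ _ _ rfl ?_ (V.inv _ _ _ rfl ?_ (h.congr (by ring) (by ring)))
  · rw [hg.one (t := 3 * i + 1) (by omega), hg.two (t := 3 * j - 1) (by omega)]
    cases a <;> simp
  · rw [hg.two (t := 3 * i + 1 + 1) (by omega), hg.one (t := 3 * j - 1 - 1) (by omega)]
    cases a <;> simp

theorem V.up {y : ℤ → Bool} {a : Bool} (hg : Good y a) {p : List Bool} {i j : ℤ}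
    (h : V (der y) true p i j) : V y true p (3 * i) (3 * j) := by
  induction h with
  | nil i j => exact V.nil _ _
  | vis b p i j h1 h2 _ ih => exact V.vis b p _ _ h1 h2 (ih.skip hg)
  | inv p i j h0 h1 _ ih => exact V.inv p _ _ h0 h1 (ih.skip hg)

theorem V.down {y : ℤ → Bool} {a : Bool} (hg : Good y a) {p : List Bool} {i j : ℤ}
    (h : V y true p i j) (hs : (i + j) % 3 = 0) : V (der y) true p ((i + 2) / 3) (j / 3) := by
  induction h with
  | nil i j => exact V.nil _ _
  | vis b p i j h1 h2 _ ih =>
    have ih' := ih (by omega)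
    have h3 : i % 3 = 0 := by
      by_contra h3
      rcases (by omega : i % 3 = 1 ∨ i % 3 = 2) with h4 | h4
      · rw [hg.one h4] at h1
        rw [hg.two (t := j) (by omega), h1] at h2
        cases b <;> simp at h2
      · rw [hg.two h4] at h1
        rw [hg.one (t := j) (by omega)] at h2
        rw [h2] at h1
        cases b <;> simp at h1
    refine V.vis b p _ _ ?_ ?_ (ih'.congr (by omega) (by omega))
    · unfold der; rwa [show 3 * ((i + 2) / 3) = i by omega]
    · unfold der; rwa [show 3 * (j / 3) = j by omega]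
  | inv p i j h0 h1 _ ih =>
    have ih' := ih (by omega)
    by_cases h3 : i % 3 = 0
    · refine V.inv p _ _ rfl ?_ (ih'.congr (by omega) (by omega))
      unfold der
      rwa [show 3 * ((i + 2) / 3) = i by omega, show 3 * (j / 3) = j by omega]
    · exact ih'.congr (by omega) (by omega)

/-- What a strict pattern of the derived sequence looks like on a skew line. -/
def enc (c : Bool) : List Bool → List Bool
  | [] => []
  | b :: p => if b = c then c :: c :: (!c) :: enc c p else (!c) :: enc c p

theorem V.enc_one {y : ℤ → Bool} {a : Bool} (hg : Good y a) {p : List Bool} {i j : ℤ}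
    (h : V (der y) false p i j) : V y true (enc a p) (3 * i) (3 * j + 1) := by
  induction h with
  | nil i j => exact V.nil _ _
  | vis b p i j h1 h2 _ ih =>
    unfold der at h1 h2
    have e1 : y (3 * j + 1) = a := hg.one (by omega)
    have e2 : y (3 * i + 1) = a := hg.one (by omega)
    have e3 : y (3 * j + 1 - 1) = b := by rwa [show 3 * j + 1 - 1 = 3 * j by ring]
    have e4 : y (3 * i + 1 + 1) = !a := hg.two (by omega)
    have e5 : y (3 * j + 1 - 1 - 1) = !a := hg.two (by omega)
    have k : V y true ((!a) :: enc a p) (3 * i + 1 + 1) (3 * j + 1 - 1 - 1) :=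
      V.vis _ _ _ _ e4 e5 (ih.congr (by ring) (by ring))
    unfold enc
    split_ifs with hb
    · subst hb
      exact V.vis _ _ _ _ h1 e1 (V.vis _ _ _ _ e2 e3 k)
    · refine V.inv _ _ _ rfl ?_ (V.inv _ _ _ rfl ?_ k)
      · rw [h1, e1]; exact hb
      · rw [e2, e3]; exact fun h => hb h.symm
  | inv p i j h0 h1 _ ih => simp at h0

theorem V.enc_two {y : ℤ → Bool} {a : Bool} (hg : Good y a) {p : List Bool} {i j : ℤ}
    (h : V (der y) false p i j) : V y true (enc (!a) p) (3 * i - 1) (3 * j) := by
  induction h with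
  | nil i j => exact V.nil _ _
  | vis b p i j h1 h2 _ ih =>
    unfold der at h1 h2
    have e1 : y (3 * i - 1) = !a := hg.two (by omega)
    have e2 : y (3 * i - 1 + 1) = b := by rwa [show 3 * i - 1 + 1 = 3 * i by ring]
    have e3 : y (3 * j - 1) = !a := hg.two (by omega)
    have e4 : y (3 * i - 1 + 1 + 1) = !(!a) := by
      rw [Bool.not_not]; exact hg.one (by omega)
    have e5 : y (3 * j - 1 - 1) = !(!a) := by
      rw [Bool.not_not]; exact hg.one (by omega)
    have k : V y true ((!(!a)) :: enc (!a) p) (3 * i - 1 + 1 + 1) (3 * j - 1 - 1) :=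
      V.vis _ _ _ _ e4 e5 (ih.congr (by ring) (by ring))
    unfold enc
    split_ifs with hb
    · rw [hb] at h2 e2
      exact V.vis _ _ _ _ e1 h2 (V.vis _ _ _ _ e2 e3 k)
    · refine V.inv _ _ _ rfl ?_ (V.inv _ _ _ rfl ?_ k)
      · rw [e1, h2]; exact fun h => hb h.symm
      · rw [e2, e3]; exact hb
  | inv p i j h0 h1 _ ih => simp at h0

theorem V.enc_any {y : ℤ → Bool} {a : Bool} (hg : Good y a) {p : List Bool} {i j : ℤ}
    (h : V (der y) false p i j) (c : Bool) : ∃ i' j', V y true ((!c) :: enc c p) i' j' := by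
  by_cases hc : c = a
  · subst hc
    exact ⟨3 * i - 1, 3 * j + 2, V.vis _ _ _ _ (hg.two (by omega)) (hg.two (by omega))
      ((h.enc_one hg).congr (by ring) (by ring))⟩
  · have hc' : c = !a := by cases c <;> cases a <;> simp_all
    subst hc'
    refine ⟨3 * i - 2, 3 * j + 1, V.vis _ _ _ _ ?_ ?_ ((h.enc_two hg).congr (by ring) (by ring))⟩
    · rw [Bool.not_not]; exact hg.one (by omega)
    · rw [Bool.not_not]; exact hg.one (by omega)

theorem badL_of_badS_der {y : ℤ → Bool} {a : Bool} (hg : Good y a) (h : BadS (der y)) :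
    BadL y := by
  obtain ⟨p, hp, i, j, h⟩ := h
  simp only [strictPats, List.mem_cons, List.not_mem_nil, or_false] at hp
  rcases hp with rfl | rfl | rfl | rfl
  · exact ⟨_, by decide, h.enc_any hg false⟩
  · exact ⟨_, by decide, h.enc_any hg true⟩
  · exact ⟨_, by decide, h.enc_any hg true⟩
  · exact ⟨_, by decide, h.enc_any hg true⟩

/-- The word `a b c` occurs in `z`. -/
def O3 (z : ℤ → Bool) (a b c : Bool) : Prop := ∃ t, z t = a ∧ z (t + 1) = b ∧ z (t + 2) = c

/-- The word `a b c d` occurs in `z`. -/
def O4 (z : ℤ → Bool) (a b c d : Bool) : Prop :=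
  ∃ t, z t = a ∧ z (t + 1) = b ∧ z (t + 2) = c ∧ z (t + 3) = d

theorem V_of_O3 {z : ℤ → Bool} {a b c : Bool} (h : O3 z a b c) (h' : O3 z c b a) :
    ∃ i j, V z false [a, b, c] i j := by
  obtain ⟨t, h1, h2, h3⟩ := h
  obtain ⟨u, k1, k2, k3⟩ := h'
  refine ⟨t, u + 2, V.vis _ _ _ _ h1 k3 (V.vis _ _ _ _ h2 ?_ (V.vis _ _ _ _ ?_ ?_ (V.nil _ _)))⟩
  · rw [← k2]; congr 1; ring
  · rw [← h3]; congr 1; ring
  · rw [← k1]; congr 1; ring

theorem V_of_O4 {z : ℤ → Bool} {a b c d : Bool} (h : O4 z a b c d) (h' : O4 z d c b a) :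
    ∃ i j, V z false [a, b, c, d] i j := by
  obtain ⟨t, h1, h2, h3, h4⟩ := h
  obtain ⟨u, k1, k2, k3, k4⟩ := h'
  refine ⟨t, u + 3, V.vis _ _ _ _ h1 k4 (V.vis _ _ _ _ h2 ?_ (V.vis _ _ _ _ ?_ ?_
    (V.vis _ _ _ _ ?_ ?_ (V.nil _ _))))⟩
  · rw [← k3]; congr 1; ring
  · rw [← h3]; congr 1; ring
  · rw [← k2]; congr 1; ring
  · rw [← h4]; congr 1; ring
  · rw [← k1]; congr 1; ring

theorem good_of_avoid {z : ℤ → Bool} {P : ℤ} (hP : 0 < P) (hz : Per z P) (a : Bool)
    (h1 : ¬ O3 z a a a) (h2 : ¬ O3 z (!a) (!a) (!a))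
    (h3 : ¬ O4 z (!a) (!a) a a) (h4 : ¬ O4 z a (!a) a (!a)) :
    ∃ r, Good (shift z r) a := by
  simp only [O3, O4, not_exists, not_and] at h1 h2 h3 h4
  have step : ∀ t, z t = a → z (t + 1) = !a → z (t + 3) = a ∧ z (t + 3 + 1) = !a := by
    intro t e0 e1
    have a1 := h2 (t + 1)
    have a2 := h4 t
    have a3 := h1 (t + 2)
    have a4 := h3 (t + 1)
    simp only [add_assoc] at *
    norm_num at *
    cases a <;> cases e2 : z (t + 2) <;> cases e3 : z (t + 3) <;> cases e4 : z (t + 4) <;> simp_all
  have ex : ∃ t, z t = a ∧ z (t + 1) = !a := by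
    by_contra hn
    simp only [not_exists, not_and] at hn
    have a0 := hn 0
    have a1 := hn 1
    have a2 := hn 2
    have a3 := hn 3
    have b0 := h2 0
    have b1 := h1 0
    have b2 := h1 1
    have b3 := h1 2
    norm_num at *
    cases a <;> cases e0 : z 0 <;> cases e1 : z 1 <;> cases e2 : z 2 <;> cases e3 : z 3 <;>
      cases e4 : z 4 <;> simp_all
  obtain ⟨t, e0, e1⟩ := ex
  have fwd : ∀ k : ℕ, z (t + 3 * k) = a ∧ z (t + 3 * k + 1) = !a := by
    intro k
    induction k with
    | zero => simpa using ⟨e0, e1⟩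
    | succ k ih =>
      have := step _ ih.1 ih.2
      rwa [show t + 3 * (k : ℤ) + 3 = t + 3 * ((k + 1 : ℕ) : ℤ) by push_cast; ring] at this
  refine ⟨t - 1, fun i => ?_⟩
  have hk := fwd (i % P).toNat
  rw [Int.toNat_of_nonneg (Int.emod_nonneg _ hP.ne')] at hk
  have hi : i = i % P + (i / P) * P := by
    have := Int.emod_add_ediv_mul i P
    linarith
  unfold shift
  constructor
  · rw [← hk.1, ← hz (t + 3 * (i % P)) (3 * (i / P))]
    congr 1
    linear_combination 3 * hi
  · rw [← hk.2, ← hz (t + 3 * (i % P) + 1) (3 * (i / P))]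
    congr 1
    linear_combination 3 * hi

theorem mixed_avoid {z : ℤ → Bool} {P : ℤ} (hP : 0 < P) (hz : Per z P) (a : Bool)
    (h1 : ¬ O3 z a a a) (h3 : ¬ O4 z a a (!a) (!a)) (h4 : ¬ O4 z a (!a) a (!a)) :
    ¬ O4 z (!a) (!a) a a := by
  rintro ⟨t, e0, -, e2, e3⟩
  simp only [O3, O4, not_exists, not_and] at h1 h3 h4
  have step : ∀ t, z t = a → z (t + 1) = a → z (t + 3) = a ∧ z (t + 3 + 1) = a := by
    intro t e0 e1
    have a1 := h1 t
    have a2 := h3 t
    have a3 := h4 (t + 1)
    simp only [add_assoc] at *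
    norm_num at *
    cases a <;> cases e2 : z (t + 2) <;> cases e3 : z (t + 3) <;> cases e4 : z (t + 4) <;> simp_all
  have fwd : ∀ k : ℕ, z (t + 2 + 3 * k) = a ∧ z (t + 2 + 3 * k + 1) = a := by
    intro k
    induction k with
    | zero =>
      refine ⟨by simpa using e2, ?_⟩
      rw [← e3]; congr 1; push_cast; ring
    | succ k ih =>
      have := step _ ih.1 ih.2
      rwa [show t + 2 + 3 * (k : ℤ) + 3 = t + 2 + 3 * ((k + 1 : ℕ) : ℤ) by push_cast; ring] at this
  have hk := (fwd (P - 1).toNat).2
  rw [Int.toNat_of_nonneg (by omega), show t + 2 + 3 * (P - 1) + 1 = t + 3 * P by ring,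
    hz t 3, e0] at hk
  cases a <;> simp at hk

theorem good_of_not_badS {z : ℤ → Bool} {P : ℤ} (hP : 0 < P) (hz : Per z P) (h : ¬ BadS z) :
    ∃ r a, Good (shift z r) a := by
  have h1 : ¬ O3 z true true true := fun k => h ⟨_, by decide, V_of_O3 k k⟩
  have h2 : ¬ O3 z false false false := fun k => h ⟨_, by decide, V_of_O3 k k⟩
  have h3 : ¬ (O4 z false false true true ∧ O4 z true true false false) :=
    fun k => h ⟨_, by decide, V_of_O4 k.1 k.2⟩
  have h4 : ¬ (O4 z true false true false ∧ O4 z false true false true) :=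
    fun k => h ⟨_, by decide, V_of_O4 k.1 k.2⟩
  by_cases c1 : O4 z true false true false
  · have c2 : ¬ O4 z false true false true := fun k => h4 ⟨c1, k⟩
    have c3 : ¬ O4 z true true false false := by
      intro k
      exact mixed_avoid hP hz false h2 (fun k' => h3 ⟨k', k⟩) c2 k
    obtain ⟨r, hr⟩ := good_of_avoid hP hz false h2 h1 c3 c2
    exact ⟨r, false, hr⟩
  · by_cases c2 : O4 z false false true true
    · exact absurd c2 (mixed_avoid hP hz true h1 (fun k' => h3 ⟨c2, k'⟩) c1)
    · obtain ⟨r, hr⟩ := good_of_avoid hP hz true h1 h2 c2 c1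
      exact ⟨r, true, hr⟩

theorem BadL.of_shift {y : ℤ → Bool} {r : ℤ} (h : BadL (shift y r)) : BadL y := by
  obtain ⟨p, hp, i, j, h⟩ := h
  exact ⟨p, hp, _, _, h.shift⟩

/-- Every periodic sequence shows one of the patterns. -/
theorem periodic_bad (P : ℕ) : 0 < P → ∀ y : ℤ → Bool, Per y P → BadL y ∨ BadS y := by
  induction P using Nat.strong_induction_on with
  | _ P ih =>
    intro hP y hy
    by_cases hs : BadS y
    · exact Or.inr hs
    left
    obtain ⟨r, a, hg⟩ := good_of_not_badS (by exact_mod_cast hP) hy hs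
    have hy' : Per (shift y r) P := by
      intro t m
      unfold shift
      rw [← hy (t + r) m]; congr 1; ring
    have h3 : P % 3 = 0 := by
      by_contra h3
      rcases (by omega : P % 3 = 1 ∨ P % 3 = 2) with h4 | h4
      · have e1 := hy' 1 1
        rw [hg.one (t := 1) (by norm_num), hg.two (by omega)] at e1
        cases a <;> simp at e1
      · have e1 := hy' 2 1
        rw [hg.two (t := 2) (by norm_num), hg.one (by omega)] at e1
        cases a <;> simp at e1
    have hd : Per (der (shift y r)) ((P / 3 : ℕ) : ℤ) := by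
      intro t m
      unfold der
      rw [← hy' (3 * t) m]; congr 1
      have : (P : ℤ) = 3 * ((P / 3 : ℕ) : ℤ) := by omega
      linear_combination (-m) * this
    apply BadL.of_shift (r := r)
    rcases ih (P / 3) (by omega) (by omega) _ hd with h | h
    · obtain ⟨p, hp, i, j, h⟩ := h
      exact ⟨p, hp, _, _, h.up hg⟩
    · exact badL_of_badS_der hg h

/-- The last nonzero ternary digit (true for 1, false for 2). -/
def xs (n : ℤ) : Bool :=
  if n % 3 = 1 then true else if n % 3 = 2 then false else
    if _h : n = 0 then true else xs (n / 3)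
termination_by n.natAbs
decreasing_by omega

theorem xs_good : Good xs true := by
  intro i
  constructor
  · rw [xs]; rw [if_pos (by omega)]
  · rw [xs]; rw [if_neg (by omega), if_pos (by omega)]; rfl

theorem xs_der : der xs = xs := by
  funext i
  unfold der
  by_cases h : i = 0
  · subst h; simp
  · rw [xs, if_neg (by omega), if_neg (by omega), dif_neg (by omega)]
    congr 1; omega

/-- Which letters `xs` can take at a position of given residue modulo 9. -/
def can (r : ℕ) (a : Bool) : Bool :=
  if r % 3 = 1 then a else if r % 3 = 2 then !a else if r = 3 then a else if r = 6 then !a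
  else true

def res (i : ℤ) : ℕ := (i % 9).toNat

theorem can_xs (i : ℤ) : can (res i) (xs i) = true := by
  unfold can res
  split_ifs with h1 h2 h3 h4
  · exact xs_good.one (by omega)
  · rw [xs_good.two (by omega)]; rfl
  · have : xs i = der xs (i / 3) := by unfold der; congr 1; omega
    rw [this, xs_der]; exact xs_good.one (by omega)
  · have : xs i = der xs (i / 3) := by unfold der; congr 1; omega
    rw [this, xs_der, xs_good.two (by omega)]; rfl
  · rfl

def nx (r : ℕ) : ℕ := (r + 1) % 9
def pv (r : ℕ) : ℕ := (r + 8) % 9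

theorem res_succ (i : ℤ) : res (i + 1) = nx (res i) := by unfold res nx; omega
theorem res_pred (i : ℤ) : res (i - 1) = pv (res i) := by unfold res pv; omega
theorem res_lt (i : ℤ) : res i < 9 := by unfold res; omega

def canInv (r s : ℕ) : Bool := (can r true && can s false) || (can r false && can s true)

def one (f : ℕ → ℕ → Bool) (a : Bool) (r s : ℕ) : Bool :=
  can r a && can s a && f (nx r) (pv s)

/-- An over-approximation of the residues at which a pattern can be seen on a skew line. -/
def TT : List Bool → ℕ → ℕ → Bool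
  | [] => fun _ _ => true
  | a :: p => fun r s =>
      one (TT p) a r s || (canInv r s && (one (TT p) a (nx r) (pv s) ||
        (canInv (nx r) (pv s) && one (TT p) a (nx (nx r)) (pv (pv s)))))

theorem no_three : ∀ r < 9, ∀ s < 9, (r + s) % 3 ≠ 0 → canInv r s = true →
    canInv (nx r) (pv s) = true → canInv (nx (nx r)) (pv (pv s)) = false := by
  decide

theorem TT_of_V {p : List Bool} {i j : ℤ} (h : V xs true p i j) (hs : (i + j) % 3 ≠ 0) :
    TT p (res i) (res j) = true := by
  induction h with
  | nil i j => rfl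
  | vis a p i j h1 h2 _ ih =>
    have ih' := ih (by omega)
    rw [res_succ, res_pred] at ih'
    have c1 := can_xs i
    have c2 := can_xs j
    rw [h1] at c1
    rw [h2] at c2
    simp [TT, one, c1, c2, ih']
  | inv p i j h0 h1 _ ih =>
    have ih' := ih (by omega)
    rw [res_succ, res_pred] at ih'
    have c1 := can_xs i
    have c2 := can_xs j
    have c3 : canInv (res i) (res j) = true := by
      unfold canInv
      cases e1 : xs i <;> cases e2 : xs j <;> simp_all
    cases p with
    | nil => rfl
    | cons a p =>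
      have n3 := no_three (res i) (res_lt i) (res j) (res_lt j) (by unfold res; omega) c3
      simp only [TT, Bool.or_eq_true, Bool.and_eq_true] at ih' ⊢
      rcases ih' with k | ⟨k1, k | ⟨k2, -⟩⟩
      · exact Or.inr ⟨c3, Or.inl k⟩
      · exact Or.inr ⟨c3, Or.inr ⟨k1, k⟩⟩
      · rw [n3 k1] at k2; simp at k2

theorem TT_loose : ∀ p ∈ loosePats, ∀ r < 9, ∀ s < 9, (r + s) % 3 ≠ 0 → TT p r s = false := by
  decide +kernel

theorem xs_not_loose (s : ℕ) : 0 < s → ∀ p ∈ loosePats, ∀ i j : ℤ, i + j = s →
    ¬ V xs true p i j := by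
  induction s using Nat.strong_induction_on with
  | _ s ih =>
    intro hs p hp i j hij h
    by_cases h3 : (i + j) % 3 = 0
    · have h' := h.down xs_good h3
      rw [xs_der] at h'
      exact ih (s / 3) (by omega) (by omega) p hp _ _ (by omega) h'
    · have h' := TT_of_V h h3
      rw [TT_loose p hp _ (res_lt i) _ (res_lt j) (by unfold res; omega)] at h'
      simp at h'

def TS : List Bool → ℕ → Bool
  | [] => fun _ => true
  | a :: p => fun r => can r a && TS p (nx r)

theorem TS_of_V {p : List Bool} {i j : ℤ} (h : V xs false p i j) : TS p (res i) = true := by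
  induction h with
  | nil i j => rfl
  | vis a p i j h1 h2 _ ih =>
    rw [res_succ] at ih
    have c1 := can_xs i
    rw [h1] at c1
    simp [TS, c1, ih]
  | inv p i j h0 h1 _ ih => simp at h0

theorem TS_strict : ∀ p ∈ strictPats, ∀ r < 9, TS p r = false := by
  decide +kernel

theorem xs_not_strict : ∀ p ∈ strictPats, ∀ i j : ℤ, ¬ V xs false p i j := by
  intro p hp i j h
  have h' := TS_of_V h
  rw [TS_strict p hp _ (res_lt i)] at h'
  simp at h'

end Pool.Agent.Lib.MP_977c67_al
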