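import Pool.Agent.Lib.MP_977c67_al.DetMain

/-! The easy direction: a finite semigroup has a regular word problem. -/

set_option autoImplicit false

namespace Pool.Agent.Lib.MP_977c67_al.DPDA

open Relation

/-- A finite automaton as a pushdown automaton that keeps its stack fixed. -/
def ofFun {T Q : Type} [Finite Q] (s : Q) (F : Set Q) (f : Q → T → Q) : DPDA T where
  Q := Q
  Γ := Unit
  finQ := inferInstance
  finΓ := inferInstance
  start := s
  bottom := ()
  final := F
  δ q o _ := o.map fun a => (f q a, [()])
  det _ _ _ k := absurd rfl k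

theorem ofFun_acc {T Q : Type} [Finite Q] (s : Q) (F : Set Q) (f : Q → T → Q) (w : List T) :
    ∀ q : Q, (ofFun s F f).Acc q [()] w ↔ w.foldl f q ∈ F := by
  induction w with
  | nil =>
    refine fun q => ⟨?_, fun k => ⟨q, k, _, ReflTransGen.refl⟩⟩
    rintro ⟨p, hp, η, r⟩
    rcases r.cases_head with e | ⟨d, ⟨o, X, δ, β, h1, h2, -, -⟩, -⟩
    · obtain rfl : q = p := congrArg Prod.fst e
      exact hp
    · cases o with
      | none => exact absurd h1 (by simp [ofFun])
      | some a => simp at h2
  | cons a w ih =>
    intro q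
    have st : (ofFun s F f).Step (q, a :: w, [()]) (f q a, w, [()]) :=
      ⟨some a, (), [()], [], rfl, rfl, rfl, rfl⟩
    rw [List.foldl_cons, ← ih]
    refine ⟨?_, Acc.back (ReflTransGen.single st)⟩
    rintro ⟨p, hp, η, r⟩
    rcases r.cases_head with e | ⟨d, st', r'⟩
    · exact absurd (congrArg (fun c => c.2.1) e) (List.cons_ne_nil a w)
    · exact ⟨p, hp, η, step_det st' st ▸ r'⟩

variable {S : Type} [Semigroup S] {A : Finset S}

/-- The products before and after the marker, and the number of markers read. -/
def nxt (q : WithOne S × WithOne S × Option Bool) :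
    Option A → WithOne S × WithOne S × Option Bool
  | none => (q.1, q.2.1, some q.2.2.isNone)
  | some a => if q.2.2 = none then (q.1 * (a : S), q.2) else (q.1, (a : S) * q.2.1, q.2.2)

theorem nxt_low (l : List A) : ∀ x y : WithOne S,
    (l.map some).foldl nxt (x, y, none) = (x * wv (l.map some), y, none) := by
  induction l with
  | nil => simp [wv]
  | cons a l ih => intro x y; simp [nxt, ih, wv, mul_assoc]

theorem nxt_high (l : List A) (b : Bool) : ∀ x y : WithOne S,
    (l.map some).foldl nxt (x, y, some b) = (x, wv (l.map some).reverse * y, some b) := by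
  induction l with
  | nil => simp [wv]
  | cons a l ih => intro x y; simp [nxt, ih, wv, mul_assoc]

theorem nxt_dead (l : List (Option A)) : ∀ x y : WithOne S,
    (l.foldl nxt (x, y, some false)).2.2 = some false := by
  induction l with
  | nil => simp
  | cons a l ih => intro x y; cases a <;> simp [nxt, ih]

theorem exists_cut (w : List (Option A)) :
    ∃ l : List A, w = l.map some ∨ ∃ v, w = l.map some ++ none :: v := by
  induction w with
  | nil => exact ⟨[], Or.inl rfl⟩
  | cons o w ih =>
    cases o with
    | none => exact ⟨[], Or.inr ⟨w, rfl⟩⟩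
    | some a =>
      obtain ⟨l, rfl | ⟨v, rfl⟩⟩ := ih
      · exact ⟨a :: l, Or.inl rfl⟩
      · exact ⟨a :: l, Or.inr ⟨v, rfl⟩⟩

theorem conv [Finite S] : IsDetContextFree (wordProblem A) := by
  have : Finite (WithOne S) := inferInstanceAs (Finite (Option S))
  refine ⟨ofFun (1, 1, none) {q | q.1 ≠ 1 ∧ q.1 = q.2.1 ∧ q.2.2 = some true} nxt, fun w =>
    Iff.trans ⟨?_, fun k => ?_⟩ (ofFun_acc _ _ _ w (1, 1, none)).symm⟩
  · rintro ⟨u, v, e, rfl⟩
    rw [List.foldl_append, List.foldl_append, nxt_low]
    simp only [List.foldl_cons, List.foldl_nil, nxt, Option.isNone_none]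
    rw [nxt_high, ← List.map_reverse, List.reverse_reverse, wv_letters, wv_letters, e]
    simp
  · obtain ⟨l, rfl | ⟨v, rfl⟩⟩ := exists_cut w
    · rw [nxt_low] at k
      simp at k
    · rw [List.foldl_append, nxt_low] at k
      simp only [List.foldl_cons, nxt, Option.isNone_none] at k
      obtain ⟨l', rfl | ⟨v', rfl⟩⟩ := exists_cut v
      · rw [nxt_high] at k
        simp only [one_mul, mul_one, Set.mem_ofPred_eq] at k
        obtain ⟨n, e, -⟩ := k
        obtain ⟨u0, eu⟩ := exists_letters (u := l.map some) (by simp) fun z => n (z ▸ rfl)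
        obtain ⟨v0, ev⟩ := exists_letters (u := (l'.map some).reverse) (by simp)
          fun z => n (e.trans (z ▸ rfl))
        rw [eu, ev, wv_letters, wv_letters] at e
        exact ⟨u0, v0, WithOne.coe_inj.1 e, by rw [List.map_reverse, ← ev, ← eu]; simp⟩
      · rw [List.foldl_append, nxt_high] at k
        simp only [List.foldl_cons, nxt, Option.isNone_some] at k
        simpa [nxt_dead] using k.2.2

end Pool.Agent.Lib.MP_977c67_al.DPDA
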