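import Pool.Agent.Lib.MP_977c67_al.DetRun

/-! Blocks of a run; two blocks with equal tables give equal elements. -/

set_option autoImplicit false

namespace Pool.Agent.Lib.MP_977c67_al.DPDA

open Relation

variable {T N : Type} [Monoid N] {M : DPDA T} {h : T} {val : List T → N}

/-- The automaton accepts the word problem of a periodic semigroup. -/
structure Wp (M : DPDA T) (h : T) (val : List T → N) : Prop where
  app : ∀ u v, val (u ++ v) = val u * val v
  nil : val [] = 1
  acc : ∀ u v, h ∉ u → (M.Acc M.start [M.bottom] (u ++ h :: v) ↔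
    h ∉ v ∧ u ≠ [] ∧ v ≠ [] ∧ val u = val v.reverse)
  ne : ∀ u, h ∉ u → val u = 1 → u = []
  per : ∀ y, h ∉ y → ∃ m p, val y ^ (p + 1 + m) = val y ^ m

/-- A word that pushes, the pushed word, and a word that pops it. -/
structure Blk (M : DPDA T) where
  /-- read while pushing -/
  y : List T
  /-- pushed -/
  β : List M.Γ
  /-- read while popping -/
  v : List T

/-- The empty block. -/
def Blk.one : Blk M := ⟨[], [], []⟩

/-- One block above another. -/
def Blk.mul (b c : Blk M) : Blk M := ⟨b.y ++ c.y, c.β ++ b.β, c.v ++ b.v⟩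

/-- Powers of a block. -/
def Blk.pow (b : Blk M) : ℕ → Blk M
  | 0 => Blk.one
  | n + 1 => b.mul (b.pow n)

/-- The block pushes from `(q, Z)` to `(q, Z)` and is popped from `s` to `s`. -/
def Good (h : T) (q : M.Q) (Z : M.Γ) (s : M.Q) (b : Blk M) : Prop :=
  h ∉ b.y ∧ M.R (q, b.y, [Z]) (q, [], Z :: b.β) ∧ M.R (s, b.v, b.β) (s, [], [])

variable {q s : M.Q} {Z : M.Γ}

theorem Good.one : Good h q Z s Blk.one :=
  ⟨List.not_mem_nil, ReflTransGen.refl, ReflTransGen.refl⟩

theorem Good.mul {b c : Blk M} (hb : Good h q Z s b) (hc : Good h q Z s c) :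
    Good h q Z s (b.mul c) := by
  refine ⟨fun m => (List.mem_append.1 m).elim hb.1 hc.1, ?_, ?_⟩
  · have r1 := frame hb.2.1 c.y []
    have r2 := frame hc.2.1 [] b.β
    simp only [List.append_nil, List.nil_append] at r1 r2
    exact r1.trans r2
  · have r1 := frame hc.2.2 b.v b.β
    exact r1.trans hb.2.2

theorem Good.pow {b : Blk M} (hb : Good h q Z s b) (n : ℕ) : Good h q Z s (b.pow n) := by
  induction n with
  | zero => exact Good.one
  | succ n ih => exact hb.mul ih

theorem Wp.pow (W : Wp M h val) (b : Blk M) (n : ℕ) : val (b.pow n).y = val b.y ^ n := by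
  induction n with
  | zero => rw [pow_zero]; exact W.nil
  | succ n ih => rw [pow_succ', ← ih]; exact W.app _ _

/-- The parts of an accepting run below and above the blocks. -/
structure Fr (h : T) (q : M.Q) (Z : M.Γ) (s : M.Q) (x : List T) (α : List M.Γ)
    (z z' v0 : List T) : Prop where
  hx : h ∉ x
  low : M.R (M.start, x, [M.bottom]) (q, [], Z :: α)
  hz : h ∉ z
  cap : M.R (q, z ++ h :: z', [Z]) (s, [], [])
  ne : v0 ≠ []
  acc : M.Acc s α v0

variable {x z z' v0 : List T} {α : List M.Γ}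

theorem Fr.run (F : Fr h q Z s x α z z' v0) {b : Blk M} (hb : Good h q Z s b) {w : List T}
    (hw : w ≠ []) : M.Acc s (b.β ++ α) w ↔
      M.Acc M.start [M.bottom] ((x ++ b.y ++ z) ++ h :: (z' ++ w)) := by
  have r1 := frame F.low (b.y ++ (z ++ h :: z' ++ w)) []
  have r2 := frame hb.2.1 (z ++ h :: z' ++ w) α
  have r3 := frame F.cap w (b.β ++ α)
  simp only [List.append_nil, List.nil_append, List.cons_append, List.append_assoc] at r1 r2 r3 ⊢
  have r := r1.trans (r2.trans r3)
  exact ⟨Acc.back r, Acc.fwd r hw⟩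

theorem Fr.eqv (F : Fr h q Z s x α z z' v0) (W : Wp M h val) {b c : Blk M} (hb : Good h q Z s b)
    (hc : Good h q Z s c) : M.Acc s (b.β ++ α) (c.v ++ v0) ↔
      val x * val b.y * val z = val x * val c.y * val z := by
  have n : c.v ++ v0 ≠ [] := fun e => F.ne (List.append_eq_nil_iff.1 e).2
  have pu : ∀ {b : Blk M}, Good h q Z s b → h ∉ x ++ b.y ++ z := fun hb m => by
    rcases List.mem_append.1 m with m | m
    · exact (List.mem_append.1 m).elim F.hx hb.1
    · exact F.hz m
  have a0 : M.Acc s (c.β ++ α) (c.v ++ v0) := Acc.back (frame hc.2.2 v0 α) F.acc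
  obtain ⟨a1, a2, a3, a4⟩ := (W.acc _ _ (pu hc)).1 ((F.run hc n).1 a0)
  rw [F.run hb n, W.acc _ _ (pu hb), ← W.app, ← W.app, ← W.app, ← W.app, ← a4]
  refine ⟨fun k => k.2.2.2, fun k => ⟨a1, fun e => a2 (W.ne _ (pu hc) ?_), a3, k⟩⟩
  rw [← k, e, W.nil]

theorem Fr.cancel (F : Fr h q Z s x α z z' v0) (W : Wp M h val) {b c d : Blk M}
    (hb : Good h q Z s b) (hc : Good h q Z s c) (hd : Good h q Z s d)
    (e : val x * val (b.mul d).y * val z = val x * val (c.mul d).y * val z) :
    val x * val b.y * val z = val x * val c.y * val z := by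
  rw [← F.eqv W (hb.mul hd) (hc.mul hd)] at e
  rw [← F.eqv W hb hc]
  refine Acc.fwd (frame hd.2.2 (c.v ++ v0) (b.β ++ α))
    (fun e => F.ne (List.append_eq_nil_iff.1 e).2) ?_
  simpa only [Blk.mul, List.append_assoc] using e

/-- The final parts of `v0` that are accepted above the stack `α`. -/
def tab (M : DPDA T) (v0 : List T) (α : List M.Γ) : Set (M.Q × Fin (v0.length + 1)) :=
  {p | M.Acc p.1 α (v0.drop p.2)}

theorem tab_acc {α α' β : List M.Γ} (e : M.tab v0 α = M.tab v0 α') (k : M.Acc s (β ++ α) v0) :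
    M.Acc s (β ++ α') v0 := by
  rcases k.expose with k | ⟨s', r, k1, k2⟩
  · exact k.frame α'
  · obtain ⟨y, e1, -⟩ := split k1
    have l : y.length < v0.length + 1 := by rw [e1, List.length_append]; omega
    have d : v0.drop y.length = r := by rw [e1, List.drop_left]
    have m : (s', ⟨y.length, l⟩) ∈ M.tab v0 α := by simpa only [tab, Set.mem_ofPred_eq, d] using k2
    rw [e] at m
    have r1 := frame k1 [] α'
    simp only [List.append_nil, List.nil_append] at r1
    exact Acc.back r1 (by simpa only [tab, Set.mem_ofPred_eq, d] using m)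

theorem Fr.key (F : Fr h q Z s x α z z' v0) (W : Wp M h val) {b c : Blk M} (hb : Good h q Z s b)
    (hc : Good h q Z s c) (e : M.tab v0 (b.β ++ α) = M.tab v0 (c.β ++ α)) :
    val (x ++ c.y ++ z) = val (x ++ b.y ++ z) := by
  obtain ⟨m, p, hp⟩ := W.per b.y hb.1
  have e1 := F.cancel W (hb.pow (p + 1)) Good.one (hb.pow m) (by
    simp only [Blk.mul, Blk.one, List.nil_append, W.app, W.pow, ← pow_add, hp])
  have a1 := (F.eqv W (hb.pow (p + 1)) Good.one).2 e1
  have a2 : M.Acc s ((b.pow p).β ++ (c.β ++ α)) v0 :=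
    tab_acc e (by simpa only [Blk.pow, Blk.mul, Blk.one, List.append_assoc, List.nil_append]
      using a1)
  have e2 := (F.eqv W (hc.mul (hb.pow p)) Good.one).1
    (by simpa only [Blk.mul, Blk.one, List.append_assoc, List.nil_append] using a2)
  rw [W.app, W.app, W.app, W.app]
  exact F.cancel W hc hb (hb.pow p) (e2.trans e1.symm)

end Pool.Agent.Lib.MP_977c67_al.DPDA
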