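import Mathlib

/-! Deterministic pushdown automata and the word problem of a semigroup. -/

set_option autoImplicit false

namespace Pool.Agent.Lib.MP_977c67_al

/-- A deterministic pushdown automaton over the input alphabet `T`. -/
structure DPDA (T : Type) where
  /-- states -/
  Q : Type
  /-- stack symbols -/
  Γ : Type
  finQ : Finite Q
  finΓ : Finite Γ
  /-- initial state -/
  start : Q
  /-- initial stack symbol -/
  bottom : Γ
  /-- accepting states -/
  final : Set Q
  /-- `δ q a X = some (q', γ)`: in state `q`, reading the letter `a` (or nothing if `a = none`),
  with `X` on top of the stack, go to state `q'` and replace `X` by the word `γ` -/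
  δ : Q → Option T → Γ → Option (Q × List Γ)
  /-- where a move that reads nothing is defined, no move that reads a letter is defined -/
  det : ∀ q a X, δ q none X ≠ none → δ q (some a) X = none

/-- One move between configurations (state, unread input, stack with its top first). -/
def DPDA.Step {T : Type} (M : DPDA T) (c c' : M.Q × List T × List M.Γ) : Prop :=
  ∃ (a : Option T) (X : M.Γ) (γ α : List M.Γ), M.δ c.1 a X = some (c'.1, γ) ∧
    c.2.1 = a.toList ++ c'.2.1 ∧ c.2.2 = X :: α ∧ c'.2.2 = γ ++ α

/-- Acceptance by final state. -/
def DPDA.Accepts {T : Type} (M : DPDA T) (w : List T) : Prop :=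
  ∃ f ∈ M.final, ∃ γ : List M.Γ,
    Relation.ReflTransGen M.Step (M.start, w, [M.bottom]) (f, [], γ)

/-- A language is deterministic context-free if some deterministic pushdown automaton accepts
exactly its words. -/
def IsDetContextFree {T : Type} (L : Language T) : Prop :=
  ∃ M : DPDA T, ∀ w, w ∈ L ↔ M.Accepts w

/-- The letters of a nonempty word. -/
def letters {α : Type} (u : FreeSemigroup α) : List α := u.head :: u.tail

/-- The element of `S` represented by a nonempty word over `A ⊆ S`. -/
def value {S : Type} [Semigroup S] {A : Finset S} (u : FreeSemigroup A) : S :=
  FreeSemigroup.lift (fun a : A => (a : S)) u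

/-- The word problem of `S` with respect to `A`: all words `u # v^rev` with `u`, `v` nonempty
words over `A` representing the same element; the marker is `none`. -/
def wordProblem {S : Type} [Semigroup S] (A : Finset S) : Language (Option A) :=
  {w | ∃ u v : FreeSemigroup A, value u = value v ∧
    w = (letters u).map some ++ [none] ++ (letters v).reverse.map some}

end Pool.Agent.Lib.MP_977c67_al
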