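import Pool.Agent.Lib.MP_977c67_al.DetTower

/-! The stacks are bounded, so there are finitely many elements. -/

set_option autoImplicit false

namespace Pool.Agent.Lib.MP_977c67_al.DPDA

open Relation Filter

variable {T N : Type} [Monoid N] {M : DPDA T} {h : T} {val : List T → N}

theorem exists_bound [Finite T] (M : DPDA T) :
    ∃ K, ∀ q a X q' γ, M.δ q a X = some (q', γ) → γ.length ≤ K := by
  have := M.finQ
  have := M.finΓ
  obtain ⟨K, hK⟩ := (Set.finite_range fun p : M.Q × Option T × M.Γ =>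
    ((M.δ p.1 p.2.1 p.2.2).map fun r => r.2.length).getD 0).bddAbove
  exact ⟨K, fun q a X q' γ e => by simpa [e] using hK ⟨(q, a, X), rfl⟩⟩

theorem exists_lim {B : Type} (U : Ultrafilter ℕ) (f : ℕ → B) {s : Set B} (hs : s.Finite)
    (hf : ∀ᶠ t in U, f t ∈ s) : ∃ a, ∀ᶠ t in U, f t = a := by
  obtain ⟨a, -, e⟩ := Ultrafilter.eq_pure_of_finite_mem (f := U.map f) hs hf
  have m : {a} ∈ U.map f := by
    rw [e]
    exact Ultrafilter.mem_pure.2 rfl
  exact ⟨a, m⟩

theorem Wp.bound [Finite T] (W : Wp M h val) :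
    ∃ n, ∀ u q0 γ0, Top M h val u q0 γ0 → γ0.length ≤ n := by
  have := M.finQ
  have := M.finΓ
  obtain ⟨K, hK⟩ := exists_bound M
  by_contra hn
  push Not at hn
  choose u q0 γ0 top len using fun t => hn (t * (K + 1))
  choose d ok up using fun t => (top t).tower hK t (len t)
  have ev : ∀ i, ∀ᶠ t in (hyperfilter ℕ : Filter ℕ), i ≤ t := fun i =>
    Nat.hyperfilter_le_atTop (eventually_ge_atTop i)
  choose L hL using fun i => exists_lim (hyperfilter ℕ)
    (fun t => (((d t i).q, (d t i).Z, (d t i).s), (d t i).α))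
    (Set.finite_univ.prod (List.finite_length_le M.Γ (i * (K + 1))))
    ((ev i).mono fun t ht => ⟨trivial, (ok t i ht).2⟩)
  obtain ⟨⟨q, Z, s⟩, hs⟩ := Finite.exists_infinite_fiber fun i => (L i).1
  have inf : {i | (L i).1 = (q, Z, s)}.Infinite := Set.infinite_coe_iff.1 hs
  have mono := Nat.nth_strictMono inf
  have mem := Nat.nth_mem_of_infinite inf
  generalize Nat.nth (fun i => (L i).1 = (q, Z, s)) = a at mono mem
  have E : ∀ i, ∀ᶠ t in (hyperfilter ℕ : Filter ℕ), a i ≤ t ∧ (d t (a i)).q = q ∧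
      (d t (a i)).Z = Z ∧ (d t (a i)).s = s ∧ (d t (a i)).α = (L (a i)).2 := fun i =>
    ((ev (a i)).and (hL (a i))).mono fun t ⟨l, e⟩ => by
      have e1 := (congrArg Prod.fst e).trans (mem i)
      simp only [Prod.mk.injEq] at e1
      exact ⟨l, e1.1, e1.2.1, e1.2.2, congrArg Prod.snd e⟩
  obtain ⟨t, ⟨l0, a0, b0, c0, -⟩, l1, a1, b1, c1, e1⟩ := ((E 0).and (E 1)).exists
  have o0 := (ok t _ l0).1
  have o1 := (ok t _ l1).1
  have u1 := up t _ _ (mono zero_lt_one) l1
  cases s with
  | none =>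
    exact (top t).short W o0 o1 u1 (a1.trans a0.symm) (b1.trans b0.symm) ((o1.stay c1).frame _)
  | some s =>
    obtain ⟨v0, n, acc⟩ := (top t).tail W o0 o1 u1 (a1.trans a0.symm) (b1.trans b0.symm) c0 c1
    rw [e1] at acc
    obtain ⟨i, j, ne, e⟩ := Finite.exists_ne_map_eq_of_infinite fun i => M.tab v0 (L (a (i + 2))).2
    wlog lt : i < j generalizing i j
    · exact this j i ne.symm e.symm (by omega)
    obtain ⟨t, ⟨l1, a1, b1, c1, e1⟩, ⟨l2, a2, b2, c2, e2⟩, l3, a3, b3, c3, e3⟩ :=
      ((E 1).and ((E (i + 2)).and (E (j + 2)))).exists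
    exact (top t).three W (ok t _ l1).1 (ok t _ l2).1 (ok t _ l3).1
      (up t _ _ (mono (by omega)) l2) (up t _ _ (mono (by omega)) l3) (a2.trans a1.symm)
      (b2.trans b1.symm) (a3.trans a1.symm) (b3.trans b1.symm) c1 c2 c3 n (e1 ▸ acc)
      (by rw [e2, e3]; exact e)

theorem Wp.top (W : Wp M h val) {u : List T} (p : h ∉ u) (n : u ≠ []) :
    ∃ c : M.Q × List M.Γ, ∃ u', val u' = val u ∧ Top M h val u' c.1 c.2 := by
  classical
  have ex : ∃ k, ∃ u', h ∉ u' ∧ val u' = val u ∧ u'.length = k := ⟨_, u, p, rfl, rfl⟩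
  obtain ⟨u', p', e, l⟩ := Nat.find_spec ex
  have n' : u' ≠ [] := by
    rintro rfl
    exact n (W.ne u p (e.symm.trans W.nil))
  have a : M.Acc M.start [M.bottom] (u' ++ h :: u'.reverse) := (W.acc _ _ p').2
    ⟨by simpa using p', n', by simpa using n', by rw [List.reverse_reverse]⟩
  obtain ⟨f, hf, η, r⟩ := id a
  obtain ⟨q, Y, α, pp, k1, k2⟩ := before r rfl h u'.reverse u' rfl
  obtain ⟨y, e1, k3⟩ := split k2
  obtain rfl : u' = y := List.append_cancel_right e1
  exact ⟨(q, Y :: α), u', e, p', fun w pw ew => l ▸ Nat.find_min' ex ⟨w, pw, ew.trans e, rfl⟩,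
    k3, Acc.fwd k2 (by simp) a, Y, α, pp, rfl, k1⟩

theorem Top.inj (W : Wp M h val) {u u' : List T} {q0 : M.Q} {γ0 : List M.Γ}
    (t : Top M h val u q0 γ0) (t' : Top M h val u' q0 γ0) : val u = val u' := by
  have r := frame t.run (h :: u'.reverse) []
  simp only [List.append_nil, List.nil_append] at r
  have e := ((W.acc _ _ t.pure).1 (Acc.back r t'.acc)).2.2.2
  rwa [List.reverse_reverse] at e

theorem Wp.finite [Finite T] (W : Wp M h val) :
    {x | ∃ u, h ∉ u ∧ u ≠ [] ∧ val u = x}.Finite := by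
  have := M.finQ
  have := M.finΓ
  have : Nonempty (M.Q × List M.Γ) := ⟨M.start, []⟩
  obtain ⟨n, hn⟩ := W.bound
  have k : ∀ x ∈ {x | ∃ u, h ∉ u ∧ u ≠ [] ∧ val u = x},
      ∃ c : M.Q × List M.Γ, ∃ u', val u' = x ∧ Top M h val u' c.1 c.2 := by
    rintro x ⟨u, p, n, rfl⟩
    exact W.top p n
  choose! f hf using k
  refine Set.Finite.of_injOn (f := f) (fun x hx => ?_) (fun x hx y hy e => ?_)
    (Set.finite_univ.prod (List.finite_length_le M.Γ n))
  · obtain ⟨u, -, t⟩ := hf x hx
    exact ⟨trivial, hn _ _ _ t⟩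
  · obtain ⟨u, rfl, t⟩ := hf x hx
    obtain ⟨u', rfl, t'⟩ := hf y hy
    exact t.inj W (e ▸ t')

section Glue

variable {S : Type} [Semigroup S] {A : Finset S}

/-- The value of a word in the monoid with an added identity. -/
def wv (w : List (Option A)) : WithOne S :=
  (w.map fun o => o.elim 1 fun a => ((a : S) : WithOne S)).prod

theorem wv_letters (u : FreeSemigroup A) : wv ((letters u).map some) = (value u : S) := by
  induction u using FreeSemigroup.recOnMul with
  | ih1 x => simp [wv, letters, value]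
  | ih2 x y _ ih =>
    have e : letters (FreeSemigroup.of x * y) = x :: letters y := rfl
    have e' : value (FreeSemigroup.of x * y) = x * value y := by simp [value]
    rw [e, e', WithOne.coe_mul, ← ih]
    simp [wv]

theorem exists_letters {u : List (Option A)} (p : none ∉ u) (n : u ≠ []) :
    ∃ u0 : FreeSemigroup A, u = (letters u0).map some := by
  have k : ∀ u : List (Option A), none ∉ u → ∃ l : List A, u = l.map some := by
    intro u
    induction u with
    | nil => exact fun _ => ⟨[], rfl⟩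
    | cons o u ih =>
      intro p
      obtain ⟨l, rfl⟩ := ih fun m => p (List.mem_cons_of_mem _ m)
      cases o with
      | none => simp at p
      | some a => exact ⟨a :: l, rfl⟩
  obtain ⟨l, rfl⟩ := k u p
  cases l with
  | nil => exact absurd rfl n
  | cons a l => exact ⟨⟨a, l⟩, rfl⟩

theorem periodic {s : S} (hs : (Subsemigroup.closure ({s} : Set S) : Set S).Finite) :
    ∃ m p, (s : WithOne S) ^ (p + 1 + m) = (s : WithOne S) ^ m := by
  have k : ∀ n, (s : WithOne S) ^ (n + 1) ∈
      (fun x : S => (x : WithOne S)) '' (Subsemigroup.closure ({s} : Set S) : Set S) := by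
    intro n
    induction n with
    | zero => exact ⟨s, Subsemigroup.subset_closure rfl, by simp⟩
    | succ n ih =>
      obtain ⟨x, hx, e⟩ := ih
      exact ⟨x * s, mul_mem hx (Subsemigroup.subset_closure rfl), by
        rw [pow_succ, ← e]
        exact WithOne.coe_mul x s⟩
  obtain ⟨i, -, j, -, lt, e⟩ := Set.infinite_univ.exists_lt_map_eq_of_mapsTo
    (f := fun n : ℕ => (s : WithOne S) ^ (n + 1)) (fun n _ => k n) (hs.image _)
  obtain ⟨p, rfl⟩ := Nat.exists_eq_add_of_lt lt
  exact ⟨i + 1, p, by rw [e]; congr 1; omega⟩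

theorem wp {M : DPDA (Option A)} (hM : ∀ w, w ∈ wordProblem A ↔ M.Accepts w)
    (per : ∀ s : S, (Subsemigroup.closure ({s} : Set S) : Set S).Finite) : Wp M none wv := by
  refine ⟨fun u v => by simp [wv], rfl, fun u v p => (hM _).symm.trans ⟨?_, ?_⟩, fun u p e => ?_,
    fun y p => ?_⟩
  · rintro ⟨u0, v0, e, e'⟩
    rw [List.append_assoc, List.singleton_append] at e'
    obtain ⟨rfl, -, rfl⟩ := (List.append_cons_inj_of_notMem (by simp) (by simp)).1 e'.symm
    refine ⟨by simp, by simp [letters], by simp [letters], ?_⟩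
    rw [← List.map_reverse, List.reverse_reverse, wv_letters, wv_letters, e]
  · rintro ⟨pv, nu, nv, e⟩
    obtain ⟨u0, rfl⟩ := exists_letters p nu
    obtain ⟨v0, ev⟩ := exists_letters (u := v.reverse) (by simpa using pv) (by simpa using nv)
    rw [ev, wv_letters, wv_letters] at e
    exact ⟨u0, v0, WithOne.coe_inj.1 e, by
      rw [List.map_reverse, ← ev, List.reverse_reverse, List.append_assoc, List.singleton_append]⟩
  · by_contra n
    obtain ⟨u0, rfl⟩ := exists_letters p n
    rw [wv_letters] at e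
    exact WithOne.coe_ne_one e
  · by_cases n : y = []
    · exact ⟨0, 0, by simp [n, wv]⟩
    · obtain ⟨u0, rfl⟩ := exists_letters p n
      rw [wv_letters]
      exact periodic (per _)

theorem main (gen : Subsemigroup.closure (A : Set S) = ⊤)
    (per : ∀ s : S, (Subsemigroup.closure ({s} : Set S) : Set S).Finite)
    (cf : IsDetContextFree (wordProblem A)) : Finite S := by
  obtain ⟨M, hM⟩ := cf
  have k : ∀ s : S, ∃ u : FreeSemigroup A, value u = s := fun s => by
    have m : s ∈ Subsemigroup.closure (A : Set S) := gen ▸ Subsemigroup.mem_top s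
    induction m using Subsemigroup.closure_induction with
    | mem x hx => exact ⟨FreeSemigroup.of ⟨x, hx⟩, by simp [value]⟩
    | mul x y _ _ a b =>
      obtain ⟨u, rfl⟩ := a
      obtain ⟨v, rfl⟩ := b
      exact ⟨u * v, by simp [value]⟩
  refine Set.finite_univ_iff.1 (Set.Finite.of_injOn (f := fun s : S => (s : WithOne S))
    (fun s _ => ?_) (fun x _ y _ e => WithOne.coe_inj.1 e) (wp hM per).finite)
  obtain ⟨u, rfl⟩ := k s
  exact ⟨(letters u).map some, by simp, by simp [letters], wv_letters u⟩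

end Glue

end Pool.Agent.Lib.MP_977c67_al.DPDA
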