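import Pool.Agent.Lib.MP_977c67_al.DetDefs

/-! Runs of a deterministic pushdown automaton. -/

set_option autoImplicit false

namespace Pool.Agent.Lib.MP_977c67_al.DPDA

open Relation

variable {T : Type} {M : DPDA T}

/-- A finite run. -/
abbrev R (M : DPDA T) := ReflTransGen M.Step

/-- The word is accepted from the given state and stack. -/
def Acc (M : DPDA T) (q : M.Q) (γ : List M.Γ) (w : List T) : Prop :=
  ∃ f ∈ M.final, ∃ η, M.R (q, w, γ) (f, [], η)

theorem frame' {c c' : M.Q × List T × List M.Γ} (h : M.R c c') (W : List T) (α : List M.Γ) :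
    M.R (c.1, c.2.1 ++ W, c.2.2 ++ α) (c'.1, c'.2.1 ++ W, c'.2.2 ++ α) := by
  induction h with
  | refl => exact ReflTransGen.refl
  | tail _ st ih =>
    obtain ⟨a, X, γ, β, h1, h2, h3, h4⟩ := st
    exact ih.tail ⟨a, X, γ, β ++ α, h1, by simp [h2], by simp [h3], by simp [h4]⟩

theorem frame {q q' : M.Q} {w w' : List T} {γ γ' : List M.Γ} (h : M.R (q, w, γ) (q', w', γ'))
    (W : List T) (α : List M.Γ) : M.R (q, w ++ W, γ ++ α) (q', w' ++ W, γ' ++ α) :=
  frame' h W α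

theorem step_det : Relator.RightUnique M.Step := by
  rintro ⟨q, w, σ⟩ ⟨q1, w1, σ1⟩ ⟨q2, w2, σ2⟩ ⟨a, X, γ, α, h1, h2, h3, h4⟩
    ⟨a', X', γ', α', k1, k2, k3, k4⟩
  simp only at h1 h2 h3 h4 k1 k2 k3 k4
  obtain ⟨rfl, rfl⟩ := List.cons.inj (h3.symm.trans k3)
  have e : a = a' ∧ w1 = w2 := by
    cases a <;> cases a'
    · exact ⟨rfl, h2.symm.trans k2⟩
    · rw [M.det q _ X (by simp [h1])] at k1
      simp at k1
    · rw [M.det q _ X (by simp [k1])] at h1
      simp at h1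
    · simpa using h2.symm.trans k2
  obtain ⟨rfl, rfl⟩ := e
  obtain ⟨rfl, rfl⟩ := Prod.mk.inj (Option.some.inj (h1.symm.trans k1))
  rw [h4, k4]

theorem split' {c c' : M.Q × List T × List M.Γ} (h : M.R c c') :
    ∃ y, c.2.1 = y ++ c'.2.1 ∧ M.R (c.1, y, c.2.2) (c'.1, [], c'.2.2) := by
  refine h.head_induction_on ⟨[], rfl, ReflTransGen.refl⟩ ?_
  rintro c d ⟨a, X, γ, α, h1, h2, h3, h4⟩ - ⟨y, e, r⟩
  exact ⟨a.toList ++ y, by rw [h2, e, List.append_assoc],
    ReflTransGen.head (b := (d.1, y, d.2.2)) ⟨a, X, γ, α, h1, rfl, h3, h4⟩ r⟩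

theorem split {q q' : M.Q} {w w' : List T} {γ γ' : List M.Γ} (h : M.R (q, w, γ) (q', w', γ')) :
    ∃ y, w = y ++ w' ∧ M.R (q, y, γ) (q', [], γ') :=
  split' h

theorem Acc.back {q q' : M.Q} {w w' : List T} {γ γ' : List M.Γ} (h : M.R (q, w, γ) (q', w', γ'))
    (k : M.Acc q' γ' w') : M.Acc q γ w := by
  obtain ⟨f, hf, η, r⟩ := k
  exact ⟨f, hf, η, h.trans r⟩

theorem Acc.fwd {q q' : M.Q} {w w' : List T} {γ γ' : List M.Γ} (h : M.R (q, w, γ) (q', w', γ'))
    (hw : w' ≠ []) (k : M.Acc q γ w) : M.Acc q' γ' w' := by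
  obtain ⟨f, hf, η, r⟩ := k
  rcases ReflTransGen.total_of_right_unique step_det h r with t | t
  · exact ⟨f, hf, η, t⟩
  · obtain ⟨y, e, -⟩ := split t
    exact absurd (List.append_eq_nil_iff.1 e.symm).2 hw

theorem Acc.frame {q : M.Q} {w : List T} {γ : List M.Γ} (k : M.Acc q γ w) (α : List M.Γ) :
    M.Acc q (γ ++ α) w := by
  obtain ⟨f, hf, η, r⟩ := k
  exact ⟨f, hf, η ++ α, by simpa using DPDA.frame r [] α⟩

theorem dead {q : M.Q} {w : List T} {c : M.Q × List T × List M.Γ} (h : M.R (q, w, []) c) :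
    c = (q, w, []) := by
  rcases h.cases_head with e | ⟨d, ⟨a, X, γ, α, -, -, h3, -⟩, -⟩
  · exact e.symm
  · simp at h3

/-- A run either stays above the lower part of the stack or exposes it. -/
theorem expose' {c f : M.Q × List T × List M.Γ} (h : M.R c f) : ∀ γ α, c.2.2 = γ ++ α →
    (∃ η, f.2.2 = η ++ α ∧ M.R (c.1, c.2.1, γ) (f.1, f.2.1, η)) ∨
      ∃ s r, M.R (c.1, c.2.1, γ) (s, r, []) ∧ M.R (s, r, α) f := by
  refine h.head_induction_on (fun γ α e => Or.inl ⟨γ, e, ReflTransGen.refl⟩) ?_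
  intro c d st r ih γ α e
  cases γ with
  | nil =>
    refine Or.inr ⟨c.1, c.2.1, ReflTransGen.refl, ?_⟩
    rw [List.nil_append] at e
    rw [← e]
    exact ReflTransGen.head st r
  | cons Y γ =>
    obtain ⟨a, X, δ, β, h1, h2, h3, h4⟩ := st
    obtain ⟨rfl, rfl⟩ := List.cons.inj (h3.symm.trans e)
    have st' : M.Step (c.1, c.2.1, X :: γ) (d.1, d.2.1, δ ++ γ) := ⟨a, X, δ, γ, h1, h2, rfl, rfl⟩
    rcases ih (δ ++ γ) α (h4.trans (List.append_assoc _ _ _).symm) with ⟨η, e1, r1⟩ | ⟨s, w, r1, r2⟩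
    · exact Or.inl ⟨η, e1, ReflTransGen.head st' r1⟩
    · exact Or.inr ⟨s, w, ReflTransGen.head st' r1, r2⟩

theorem Acc.expose {q : M.Q} {w : List T} {γ α : List M.Γ} (k : M.Acc q (γ ++ α) w) :
    M.Acc q γ w ∨ ∃ s r, M.R (q, w, γ) (s, r, []) ∧ M.Acc s α r := by
  obtain ⟨f, hf, η, r⟩ := k
  rcases expose' r γ α rfl with ⟨η', -, r1⟩ | ⟨s, w', r1, r2⟩
  · exact Or.inl ⟨f, hf, η', r1⟩
  · exact Or.inr ⟨s, w', r1, f, hf, η, r2⟩

/-- Between the two moments at which two levels are exposed. -/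
theorem between {q s s' : M.Q} {w r r' : List T} {γ β : List M.Γ} (hβ : β ≠ [])
    (h : M.R (q, w, γ ++ β) (s, r, [])) (h' : M.R (q, w, γ) (s', r', [])) :
    M.R (s', r', β) (s, r, []) := by
  rcases expose' h γ β rfl with ⟨η, e, -⟩ | ⟨s1, r1, k1, k2⟩
  · exact absurd (List.append_eq_nil_iff.1 e.symm).2 hβ
  · have e : (s1, r1, ([] : List M.Γ)) = (s', r', []) := by
      rcases ReflTransGen.total_of_right_unique step_det k1 h' with t | t
      · exact (dead t).symm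
      · exact dead t
    obtain ⟨rfl, e'⟩ := Prod.mk.inj e
    obtain ⟨rfl, -⟩ := Prod.mk.inj e'
    exact k2

/-- Every lower part of the stack lies a bounded distance above a level of the run. -/
theorem stair {K : ℕ} (hK : ∀ q a X q' γ, M.δ q a X = some (q', γ) → γ.length ≤ K) {q0 : M.Q}
    {w0 : List T} {Z0 : M.Γ} {c : M.Q × List T × List M.Γ} (h : M.R (q0, w0, [Z0]) c) :
    ∀ γ α, c.2.2 = γ ++ α → γ ≠ [] → ∃ q1 Z1 β α0 w1, α = β ++ α0 ∧ β.length ≤ K ∧
      M.R (q0, w0, [Z0]) (q1, w1, Z1 :: α0) ∧ M.R (q1, w1, [Z1]) (c.1, c.2.1, γ ++ β) := by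
  induction h with
  | refl =>
    intro γ α e hγ
    obtain ⟨Y, γ, rfl⟩ := List.exists_cons_of_ne_nil hγ
    obtain ⟨rfl, e'⟩ := List.cons.inj e
    obtain ⟨rfl, rfl⟩ := List.append_eq_nil_iff.1 e'.symm
    exact ⟨q0, Z0, [], [], w0, rfl, Nat.zero_le _, ReflTransGen.refl, ReflTransGen.refl⟩
  | @tail b c r st ih =>
    intro γ α e hγ
    obtain ⟨a, X, δ, α2, h1, h2, h3, h4⟩ := st
    rcases List.append_eq_append_iff.1 (h4.symm.trans e) with ⟨η, rfl, rfl⟩ | ⟨η, rfl, rfl⟩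
    · obtain ⟨q1, Z1, β, α0, w1, e1, l1, r1, r2⟩ := ih (X :: η) α h3 (by simp)
      exact ⟨q1, Z1, β, α0, w1, e1, l1, r1,
        r2.tail ⟨a, X, δ, η ++ β, h1, h2, rfl, List.append_assoc _ _ _⟩⟩
    · refine ⟨b.1, X, η, α2, b.2.1, rfl, le_trans (by simp) (hK _ _ _ _ _ h1), ?_,
        ReflTransGen.single ⟨a, X, γ ++ η, [], h1, h2, rfl, by simp⟩⟩
      rw [← h3]
      exact r

/-- The configuration in which a given letter is read. -/
theorem before {c f : M.Q × List T × List M.Γ} (h : M.R c f) (hf : f.2.1 = []) (a : T)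
    (W : List T) : ∀ u, c.2.1 = u ++ a :: W →
      ∃ q Y α p, M.δ q (some a) Y = some p ∧ M.R c (q, a :: W, Y :: α) := by
  refine h.head_induction_on (fun u e => by simp [hf] at e) ?_
  intro c d st r ih u e
  obtain ⟨o, X, δ, β, h1, h2, h3, h4⟩ := id st
  cases o with
  | none =>
    obtain ⟨q, Y, α, p, k1, k2⟩ := ih u (h2.symm.trans e)
    exact ⟨q, Y, α, p, k1, ReflTransGen.head st k2⟩
  | some b =>
    cases u with
    | nil =>
      obtain ⟨rfl, -⟩ := List.cons.inj (h2.symm.trans e)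
      refine ⟨c.1, X, β, _, h1, ?_⟩
      rw [List.nil_append] at e
      rw [← e, ← h3]
    | cons b' u =>
      obtain ⟨q, Y, α, p, k1, k2⟩ := ih u (List.cons.inj (h2.symm.trans e)).2
      exact ⟨q, Y, α, p, k1, ReflTransGen.head st k2⟩

/-- From a configuration that reads a letter, the letter is read before the top is removed. -/
theorem reads {q s : M.Q} {a : T} {Y : M.Γ} {p : M.Q × List M.Γ} (hp : M.δ q (some a) Y = some p)
    {W r : List T} {η : List M.Γ} (h : M.R (q, a :: W, Y :: η) (s, r, [])) :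
    ∃ z, M.R (q, a :: z, Y :: η) (s, [], []) := by
  obtain ⟨y, e, k⟩ := split h
  cases y with
  | nil =>
    rcases k.cases_head with e' | ⟨d, ⟨o, X, δ, β, h1, h2, h3, -⟩, -⟩
    · simp at e'
    · obtain ⟨rfl, -⟩ := List.cons.inj h3
      cases o with
      | none =>
        rw [M.det q a Y (by simp only at h1; simp [h1])] at hp
        simp at hp
      | some b => simp at h2
  | cons b y =>
    obtain ⟨rfl, -⟩ := List.cons.inj e
    exact ⟨y, k⟩

theorem bounded {c f : M.Q × List T × List M.Γ} (h : M.R c f) :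
    ∃ n, ∀ d, M.R c d → d.2.2.length ≤ n ∨ M.R f d := by
  refine h.head_induction_on ⟨0, fun d r => Or.inr r⟩ ?_
  rintro c c' st - ⟨n, hn⟩
  refine ⟨max n c.2.2.length, fun d r => ?_⟩
  rcases r.cases_head with rfl | ⟨c'', st', r'⟩
  · exact Or.inl (le_max_right _ _)
  · rw [← step_det st st'] at r'
    exact (hn d r').imp_left fun l => l.trans (le_max_left _ _)

/-- A machine that pushes for ever reads no further letter. -/
theorem loop {q : M.Q} {Z : M.Γ} {β α : List M.Γ} {w : List T}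
    (h : M.R (q, [], [Z]) (q, [], Z :: β)) (hβ : β ≠ []) (hw : w ≠ []) :
    ¬ M.Acc q (Z :: α) w := by
  rintro ⟨f, -, η, r⟩
  obtain ⟨n, hn⟩ := bounded r
  have key : ∀ k : ℕ, ∃ α', k ≤ α'.length ∧ M.R (q, w, Z :: α) (q, w, Z :: α') := by
    intro k
    induction k with
    | zero => exact ⟨α, Nat.zero_le _, ReflTransGen.refl⟩
    | succ k ih =>
      obtain ⟨α', l, t⟩ := ih
      have := List.length_pos_iff.2 hβ
      exact ⟨β ++ α', by rw [List.length_append]; omega, t.trans (frame h w α')⟩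
  obtain ⟨α', l, t⟩ := key n
  rcases hn _ t with l' | t'
  · simp only [List.length_cons] at l'
    omega
  · obtain ⟨y, e, -⟩ := split t'
    exact hw (List.append_eq_nil_iff.1 e.symm).2

end Pool.Agent.Lib.MP_977c67_al.DPDA
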