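import Pool.Agent.Lib.MP_977c67_al.DetCore

/-! Levels of the run on a geodesic word; the stacks are bounded. -/

set_option autoImplicit false

namespace Pool.Agent.Lib.MP_977c67_al.DPDA

open Relation Filter

variable {T N : Type} [Monoid N] {M : DPDA T} {h : T} {val : List T → N}

/-- The configuration in which the marker after the geodesic word `u` is read. -/
structure Top (M : DPDA T) (h : T) (val : List T → N) (u : List T) (q0 : M.Q) (γ0 : List M.Γ) :
    Prop where
  pure : h ∉ u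
  geo : ∀ u', h ∉ u' → val u' = val u → u.length ≤ u'.length
  run : M.R (M.start, u, [M.bottom]) (q0, [], γ0)
  acc : M.Acc q0 γ0 (h :: u.reverse)
  rd : ∃ Y α p, γ0 = Y :: α ∧ M.δ q0 (some h) Y = some p

/-- The data of a level. -/
structure Lv (M : DPDA T) where
  /-- read before -/
  x : List T
  /-- read after -/
  z : List T
  /-- the state -/
  q : M.Q
  /-- the top -/
  Z : M.Γ
  /-- the stack below -/
  α : List M.Γ
  /-- the stack above, at the marker -/
  γ : List M.Γ
  /-- the state in which the stack below is exposed -/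
  s : Option M.Q

/-- A level of the run. -/
structure Ok (h : T) (u : List T) (q0 : M.Q) (γ0 : List M.Γ) (d : Lv M) : Prop where
  word : u = d.x ++ d.z
  stack : γ0 = d.γ ++ d.α
  ne : d.γ ≠ []
  low : M.R (M.start, d.x, [M.bottom]) (d.q, [], d.Z :: d.α)
  high : M.R (d.q, d.z, [d.Z]) (q0, [], d.γ)
  pop : ∀ s, d.s = some s → ∃ r, M.R (q0, h :: u.reverse, d.γ) (s, r, []) ∧ M.Acc s d.α r
  stay : d.s = none → M.Acc q0 d.γ (h :: u.reverse)

/-- One level above another. -/
def Up (d d' : Lv M) : Prop := ∃ y β, β ≠ [] ∧ d'.x = d.x ++ y ∧ d'.α = β ++ d.α ∧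
  M.R (d.q, y, [d.Z]) (d'.q, [], d'.Z :: β)

theorem Up.trans {d d' d'' : Lv M} (a : Up d d') (b : Up d' d'') : Up d d'' := by
  obtain ⟨y, β, n, e1, e2, r⟩ := a
  obtain ⟨y', β', -, e1', e2', r'⟩ := b
  refine ⟨y ++ y', β' ++ β, fun e => n (List.append_eq_nil_iff.1 e).2,
    by rw [e1', e1, List.append_assoc], by rw [e2', e2, List.append_assoc], ?_⟩
  have r1 := frame r y' []
  have r2 := frame r' [] β
  simp only [List.append_nil, List.nil_append] at r1 r2
  exact r1.trans r2

variable {u : List T} {q0 : M.Q} {γ0 : List M.Γ}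

theorem exists_pop {γ α : List M.Γ} {w : List T} (k : M.Acc q0 (γ ++ α) w) : ∃ o : Option M.Q,
    (∀ s, o = some s → ∃ r, M.R (q0, w, γ) (s, r, []) ∧ M.Acc s α r) ∧
      (o = none → M.Acc q0 γ w) := by
  rcases k.expose with k | ⟨s, r, k⟩
  · exact ⟨none, fun s e => by simp at e, fun _ => k⟩
  · exact ⟨some s, fun s' e => ⟨r, Option.some.inj e ▸ k⟩, fun e => by simp at e⟩

theorem Top.next {K : ℕ} (hK : ∀ q a X q' γ, M.δ q a X = some (q', γ) → γ.length ≤ K)
    (t : Top M h val u q0 γ0) {d : Lv M} (o : Ok h u q0 γ0 d) (l : K + 2 ≤ d.γ.length) :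
    ∃ d', Ok h u q0 γ0 d' ∧ Up d d' ∧ d'.α.length ≤ d.α.length + (K + 1) := by
  have e0 := List.take_append_drop (d.γ.length - (K + 1)) d.γ
  have l1 : (d.γ.drop (d.γ.length - (K + 1))).length = K + 1 := by rw [List.length_drop]; omega
  have n1 : d.γ.take (d.γ.length - (K + 1)) ≠ [] := fun e => by
    have := congrArg List.length e
    rw [List.length_take, List.length_nil] at this
    omega
  obtain ⟨q1, Z1, β, α0, w1, e1, l2, r1, r2⟩ := stair hK o.high _ _ e0.symm n1
  obtain ⟨y, e2, r3⟩ := split r1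
  generalize d.γ.take (d.γ.length - (K + 1)) = γ1 at e0 n1 r2
  rw [e1] at e0 l1
  rw [List.length_append] at l1
  have e3 : γ0 = (γ1 ++ β) ++ (α0 ++ d.α) := by rw [o.stack, ← e0]; simp
  obtain ⟨s, s1, s2⟩ := exists_pop (e3 ▸ t.acc)
  have r4 := frame o.low y []
  have r5 := frame r3 [] d.α
  simp only [List.append_nil, List.nil_append] at r4 r5
  refine ⟨⟨d.x ++ y, w1, q1, Z1, α0 ++ d.α, γ1 ++ β, s⟩,
    ⟨by rw [o.word, e2, List.append_assoc], e3, fun e => n1 (List.append_eq_nil_iff.1 e).1,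
      r4.trans r5, r2, s1, s2⟩, ⟨y, α0, ?_, rfl, rfl, r3⟩, ?_⟩
  · rintro rfl
    rw [List.length_nil] at l1
    omega
  · simp only [List.length_append]
    omega

theorem Top.tower {K : ℕ} (hK : ∀ q a X q' γ, M.δ q a X = some (q', γ) → γ.length ≤ K)
    (t : Top M h val u q0 γ0) (n : ℕ) : n * (K + 1) < γ0.length → ∃ d : ℕ → Lv M,
      (∀ i ≤ n, Ok h u q0 γ0 (d i) ∧ (d i).α.length ≤ i * (K + 1)) ∧
        ∀ i j, i < j → j ≤ n → Up (d i) (d j) := by
  induction n with
  | zero =>
    intro l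
    obtain ⟨s, s1, s2⟩ := exists_pop (α := []) ((List.append_nil γ0).symm ▸ t.acc)
    exact ⟨fun _ => ⟨[], u, M.start, M.bottom, [], γ0, s⟩, fun i _ =>
      ⟨⟨rfl, (List.append_nil _).symm, List.length_pos_iff.1 (by simpa using l), ReflTransGen.refl,
        t.run, s1, s2⟩, Nat.zero_le _⟩, fun i j a b => by omega⟩
  | succ n ih =>
    intro l
    rw [add_mul, one_mul] at l
    obtain ⟨d, h1, h2⟩ := ih (by omega)
    obtain ⟨o, l1⟩ := h1 n le_rfl
    have l2 := congrArg List.length o.stack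
    rw [List.length_append] at l2
    obtain ⟨d', o', up, l3⟩ := t.next hK o (by omega)
    refine ⟨fun i => if i ≤ n then d i else d', fun i hi => ?_, fun i j a b => ?_⟩
    · by_cases c : i ≤ n
      · simpa only [if_pos c] using h1 i c
      · obtain rfl : i = n + 1 := by omega
        simp only [if_neg c]
        exact ⟨o', by rw [add_mul, one_mul]; omega⟩
    · have c : i ≤ n := by omega
      by_cases c' : j ≤ n
      · simpa only [if_pos c, if_pos c'] using h2 i j a c'
      · simp only [if_pos c, if_neg c']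
        rcases c.eq_or_lt with rfl | c''
        · exact up
        · exact (h2 i n c'' le_rfl).trans up

variable {d d' : Lv M}

theorem Top.lt (t : Top M h val u q0 γ0) (o : Ok h u q0 γ0 d) (up : Up d d') (eq : d'.q = d.q)
    (eZ : d'.Z = d.Z) : d.x.length < d'.x.length := by
  obtain ⟨y, β, n, e1, -, r⟩ := up
  rw [e1, List.length_append, lt_add_iff_pos_right, List.length_pos_iff]
  rintro rfl
  rw [eq, eZ] at r
  have r1 := frame o.high (h :: u.reverse) d.α
  rw [← o.stack] at r1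
  exact loop (α := d.α) (w := d.z ++ h :: u.reverse) r n (by simp) (Acc.back r1 t.acc)

theorem Top.short (W : Wp M h val) (t : Top M h val u q0 γ0) (o : Ok h u q0 γ0 d)
    (o' : Ok h u q0 γ0 d') (up : Up d d') (eq : d'.q = d.q) (eZ : d'.Z = d.Z) :
    ¬ M.Acc q0 (d'.γ ++ d.α) (h :: u.reverse) := fun k => by
  have l := t.lt o up eq eZ
  have r1 := frame o.low (d'.z ++ h :: u.reverse) []
  have r2 := frame o'.high (h :: u.reverse) d.α
  rw [eq, eZ] at r2
  simp only [List.append_nil, List.nil_append, ← List.append_assoc] at r1 r2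
  have p : h ∉ d.x ++ d'.z := fun m => t.pure ((List.mem_append.1 m).elim
    (fun m => o.word ▸ List.mem_append_left _ m) fun m => o'.word ▸ List.mem_append_right _ m)
  have e := ((W.acc _ _ p).1 (Acc.back (r1.trans r2) k)).2.2.2
  rw [List.reverse_reverse] at e
  have l1 := t.geo _ p e
  have l2 := congrArg List.length o'.word
  rw [List.length_append] at l1 l2
  omega

theorem Top.blk (t : Top M h val u q0 γ0) (o : Ok h u q0 γ0 d) (o' : Ok h u q0 γ0 d')
    (up : Up d d') (eq : d'.q = d.q) (eZ : d'.Z = d.Z) {s : M.Q} {r r' : List T}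
    (p : M.R (q0, h :: u.reverse, d.γ) (s, r, []))
    (p' : M.R (q0, h :: u.reverse, d'.γ) (s, r', [])) :
    ∃ b : Blk M, Good h d.q d.Z s b ∧ d'.x = d.x ++ b.y ∧ d'.α = b.β ++ d.α ∧ r' = b.v ++ r := by
  obtain ⟨y, β, n, e1, e2, k⟩ := up
  have e3 : d.γ = d'.γ ++ β := by
    have := o.stack.symm.trans o'.stack
    rw [e2, ← List.append_assoc] at this
    exact List.append_cancel_right this
  rw [e3] at p
  obtain ⟨v, e4, k'⟩ := split (between n p p')
  rw [eq, eZ] at k
  exact ⟨⟨y, β, v⟩, ⟨fun m => t.pure (o'.word ▸ List.mem_append_left _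
    (e1 ▸ List.mem_append_right _ m)), k, k'⟩, e1, e2, e4⟩

theorem Top.tail (W : Wp M h val) (t : Top M h val u q0 γ0) (o : Ok h u q0 γ0 d)
    (o' : Ok h u q0 γ0 d') (up : Up d d') (eq : d'.q = d.q) (eZ : d'.Z = d.Z) {s : M.Q}
    (es : d.s = some s) (es' : d'.s = some s) : ∃ v0, v0 ≠ [] ∧ M.Acc s d'.α v0 := by
  obtain ⟨r, p, a⟩ := o.pop s es
  obtain ⟨r', p', a'⟩ := o'.pop s es'
  refine ⟨r', ?_, a'⟩
  rintro rfl
  obtain ⟨b, -, -, -, e⟩ := t.blk o o' up eq eZ p p'
  rw [(List.append_eq_nil_iff.1 e.symm).2] at a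
  have r1 := frame p' [] d.α
  simp only [List.append_nil, List.nil_append] at r1
  exact t.short W o o' up eq eZ (Acc.back r1 a)

theorem Top.three (W : Wp M h val) (t : Top M h val u q0 γ0) {c : Lv M} (oc : Ok h u q0 γ0 c)
    (o : Ok h u q0 γ0 d) (o' : Ok h u q0 γ0 d') (u1 : Up c d) (u2 : Up d d') (eq : d.q = c.q)
    (eZ : d.Z = c.Z) (eq' : d'.q = c.q) (eZ' : d'.Z = c.Z) {s : M.Q} (ec : c.s = some s)
    (es : d.s = some s) (es' : d'.s = some s) {v0 : List T} (n : v0 ≠ []) (a : M.Acc s c.α v0) :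
    M.tab v0 d.α ≠ M.tab v0 d'.α := fun e => by
  obtain ⟨rc, pc, -⟩ := oc.pop s ec
  obtain ⟨r, p, -⟩ := o.pop s es
  obtain ⟨r', p', -⟩ := o'.pop s es'
  obtain ⟨b, gb, b1, b2, -⟩ := t.blk oc o u1 eq eZ pc p
  obtain ⟨b', gb', b1', b2', -⟩ := t.blk oc o' (u1.trans u2) eq' eZ' pc p'
  obtain ⟨Y, α, pp, e1, e2⟩ := t.rd
  obtain ⟨Y', η, e3⟩ := List.exists_cons_of_ne_nil o'.ne
  have e4 := e1.symm.trans o'.stack
  rw [e3] at e4 p'
  obtain ⟨rfl, -⟩ := List.cons.inj e4
  obtain ⟨z', k⟩ := reads e2 p'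
  have r1 := frame o'.high (h :: z') []
  rw [eq', eZ', e3] at r1
  simp only [List.append_nil, List.nil_append] at r1
  have F : Fr h c.q c.Z s c.x c.α d'.z z' v0 :=
    ⟨fun m => t.pure (oc.word ▸ List.mem_append_left _ m), oc.low,
      fun m => t.pure (o'.word ▸ List.mem_append_right _ m), r1.trans k, n, a⟩
  have key := F.key W gb gb' (by rwa [← b2, ← b2'])
  rw [← b1, ← b1', ← o'.word] at key
  have l := t.lt o u2 (eq'.trans eq.symm) (eZ'.trans eZ.symm)
  have l1 := t.geo _ (fun m => t.pure ((List.mem_append.1 m).elim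
    (fun m => o.word ▸ List.mem_append_left _ m)
    fun m => o'.word ▸ List.mem_append_right _ m)) key.symm
  have l2 := congrArg List.length o'.word
  rw [List.length_append] at l1 l2
  omega

end Pool.Agent.Lib.MP_977c67_al.DPDA
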