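import Pool.Agent.Lib.MP_977c67_al.Words

/-!
A context-free grammar for the word problem of the Rees quotient by `Idl`.
-/

set_option autoImplicit false

namespace Pool.Agent.Lib.MP_977c67_al

open ContextFreeGrammar

section General

variable {T N : Type}

/-- Meaning of a sentential form, given a meaning of the nonterminals. -/
def Sem (sem : N → List T → Prop) : List (Symbol T N) → List T → Prop
  | [], w => w = []
  | Symbol.terminal a :: s, w => ∃ w', w = a :: w' ∧ Sem sem s w'
  | Symbol.nonterminal X :: s, w => ∃ w1 w2, w = w1 ++ w2 ∧ sem X w1 ∧ Sem sem s w2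

theorem Sem_append (sem : N → List T → Prop) (s t : List (Symbol T N)) (w : List T) :
    Sem sem (s ++ t) w ↔ ∃ w1 w2, w = w1 ++ w2 ∧ Sem sem s w1 ∧ Sem sem t w2 := by
  induction s generalizing w with
  | nil => simp [Sem]
  | cons x s ih =>
    cases x with
    | terminal a =>
      simp only [List.cons_append, Sem, ih]
      constructor
      · rintro ⟨w', rfl, w1, w2, rfl, h1, h2⟩
        exact ⟨a :: w1, w2, rfl, ⟨w1, rfl, h1⟩, h2⟩
      · rintro ⟨w1, w2, rfl, ⟨w', rfl, h1⟩, h2⟩
        exact ⟨w' ++ w2, rfl, w', w2, rfl, h1, h2⟩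
    | nonterminal X =>
      simp only [List.cons_append, Sem, ih]
      constructor
      · rintro ⟨w0, w', rfl, h0, w1, w2, rfl, h1, h2⟩
        exact ⟨w0 ++ w1, w2, by simp, ⟨w0, w1, rfl, h0, h1⟩, h2⟩
      · rintro ⟨w1, w2, rfl, ⟨w0, w', rfl, h0, h1⟩, h2⟩
        exact ⟨w0, w' ++ w2, by simp, h0, w', w2, rfl, h1, h2⟩

theorem Sem_terminal (sem : N → List T → Prop) (w : List T) :
    Sem sem (w.map Symbol.terminal) w := by
  induction w with
  | nil => simp [Sem]
  | cons a w ih => exact ⟨w, rfl, ih⟩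

theorem sound (g : ContextFreeGrammar T) (sem : g.NT → List T → Prop)
    (h : ∀ r ∈ g.rules, ∀ w, Sem sem r.output w → sem r.input w)
    {u v : List (Symbol T g.NT)} (hd : g.Derives u v) (w : List T) (hw : Sem sem v w) :
    Sem sem u w := by
  induction hd with
  | refl => exact hw
  | tail _ hp ih =>
    apply ih
    obtain ⟨r, hr, hrw⟩ := hp
    obtain ⟨p, q, rfl, rfl⟩ := hrw.exists_parts
    rw [Sem_append] at hw ⊢
    obtain ⟨w1, w2, rfl, h1, h2⟩ := hw
    refine ⟨w1, w2, rfl, ?_, h2⟩
    rw [Sem_append] at h1 ⊢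
    obtain ⟨w3, w4, rfl, h3, h4⟩ := h1
    exact ⟨w3, w4, rfl, h3, w4, [], by simp, h r hr _ h4, rfl⟩

theorem sound_lang (g : ContextFreeGrammar T) (sem : g.NT → List T → Prop)
    (h : ∀ r ∈ g.rules, ∀ w, Sem sem r.output w → sem r.input w) {w : List T}
    (hw : w ∈ g.language) : sem g.initial w := by
  have := sound g sem h ((mem_language_iff g w).1 hw) w (Sem_terminal sem w)
  obtain ⟨w1, w2, rfl, h1, h2⟩ := this
  simp only [Sem] at h2
  subst h2
  simpa using h1

end General

/-- Nonterminals. -/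
inductive NT
  | S : NT
  | P : NT
  | J : NT
  | N : Bool → List Bool → NT

abbrev Sy := Symbol (Option Bool) NT

def tm (a : Bool) : Sy := Symbol.terminal (some a)
def hs : Sy := Symbol.terminal none
def nt (X : NT) : Sy := Symbol.nonterminal X

open Classical in
/-- The rule schemes. -/
noncomputable def F (k : ℕ) (a lo : Bool) (p : List Bool) : ContextFreeRule (Option Bool) NT :=
  match k with
  | 0 => ⟨NT.S, [nt NT.J, hs, nt NT.J]⟩
  | 1 => ⟨NT.P, [tm a, nt NT.P, tm a]⟩
  | 2 => ⟨NT.P, [tm a, hs, tm a]⟩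
  | 3 => ⟨NT.J, [tm a, nt NT.J]⟩
  | 4 => ⟨NT.J, [nt NT.J, tm a]⟩
  | 5 => if IsPat lo p then ⟨NT.J, [nt (NT.N lo p)]⟩ else ⟨NT.S, [nt NT.P]⟩
  | 6 => ⟨NT.N lo [], []⟩
  | 7 => ⟨NT.N lo [], [tm a, nt (NT.N lo [])]⟩
  | 8 => ⟨NT.N lo (a :: p), [tm a, nt (NT.N lo p), tm a]⟩
  | 9 => ⟨NT.N true p, [tm a, nt (NT.N true p), tm (!a)]⟩
  | _ => ⟨NT.S, [nt NT.P]⟩

def ruleSet : Set (ContextFreeRule (Option Bool) NT) :=
  (fun x : ℕ × Bool × Bool × List Bool => F x.1 x.2.1 x.2.2.1 x.2.2.2) ''
    ((Set.Iic 10) ×ˢ (Set.univ ×ˢ (Set.univ ×ˢ {p : List Bool | p.length ≤ 9})))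

theorem ruleSet_finite : ruleSet.Finite := by
  apply Set.Finite.image
  exact (Set.finite_Iic 10).prod (Set.finite_univ.prod (Set.finite_univ.prod
    (List.finite_length_le Bool 9)))

noncomputable def G : ContextFreeGrammar (Option Bool) :=
  ⟨NT, NT.S, ruleSet_finite.toFinset⟩

theorem F_mem (k : ℕ) (a lo : Bool) (p : List Bool) (hk : k ≤ 10) (hp : p.length ≤ 9) :
    F k a lo p ∈ G.rules := by
  unfold G
  simp only [Set.Finite.mem_toFinset]
  exact ⟨(k, a, lo, p), ⟨hk, trivial, trivial, hp⟩, rfl⟩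

/-- The word problem language of the Rees quotient. -/
def WP (w : List (Option Bool)) : Prop :=
  ∃ u v : List Bool, u ≠ [] ∧ v ≠ [] ∧ (u = v ∨ (Idl u ∧ Idl v)) ∧
    w = u.map some ++ [none] ++ v.reverse.map some

def sem : NT → List (Option Bool) → Prop
  | NT.S, w => WP w
  | NT.P, w => ∃ u : List Bool, u ≠ [] ∧ w = u.map some ++ [none] ++ u.reverse.map some
  | NT.J, w => ∃ u : List Bool, Idl u ∧ w = u.map some
  | NT.N lo p, w => ∃ u : List Bool, W lo p u ∧ w = u.map some

theorem sound_SP (w : List (Option Bool)) (h : Sem sem [nt NT.P] w) : sem NT.S w := by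
  obtain ⟨w1, w2, rfl, ⟨u, hu, rfl⟩, h2⟩ := h
  simp only [Sem] at h2
  subst h2
  exact ⟨u, u, hu, hu, Or.inl rfl, by simp⟩

theorem F_sound (k : ℕ) (a lo : Bool) (p : List Bool) (w : List (Option Bool))
    (h : Sem sem (F k a lo p).output w) : sem (F k a lo p).input w := by
  unfold F at h ⊢
  split at h
  · obtain ⟨w1, w2, rfl, ⟨u, hu, rfl⟩, w3, rfl, w4, w5, rfl, ⟨v, hv, rfl⟩, h5⟩ := h
    simp only [Sem] at h5
    subst h5
    exact ⟨u, v.reverse, hu.ne_nil, hv.reverse.ne_nil, Or.inr ⟨hu, hv.reverse⟩, by simp⟩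
  · obtain ⟨w1, rfl, w2, w3, rfl, ⟨u, hu, rfl⟩, w4, rfl, h5⟩ := h
    simp only [Sem] at h5
    subst h5
    exact ⟨a :: u, by simp, by simp⟩
  · obtain ⟨w1, rfl, w2, rfl, w3, rfl, h5⟩ := h
    simp only [Sem] at h5
    subst h5
    exact ⟨[a], by simp, by simp⟩
  · obtain ⟨w1, rfl, w2, w3, rfl, ⟨u, hu, rfl⟩, h5⟩ := h
    simp only [Sem] at h5
    subst h5
    exact ⟨[a] ++ u, hu.append_left _, by simp⟩
  · obtain ⟨w1, w2, rfl, ⟨u, hu, rfl⟩, w3, rfl, h5⟩ := h
    simp only [Sem] at h5
    subst h5
    exact ⟨u ++ [a], hu.append_right _, by simp⟩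
  · split_ifs at h ⊢ with hp
    · obtain ⟨w1, w2, rfl, ⟨u, hu, rfl⟩, h5⟩ := h
      simp only [Sem] at h5
      subst h5
      exact ⟨u, ⟨lo, p, [], u, [], hp, hu, by simp⟩, by simp⟩
    · exact sound_SP w h
  · simp only [Sem] at h
    subst h
    exact ⟨[], W.nil _, rfl⟩
  · obtain ⟨w1, rfl, w2, w3, rfl, ⟨u, hu, rfl⟩, h5⟩ := h
    simp only [Sem] at h5
    subst h5
    exact ⟨a :: u, W.nil _, by simp⟩
  · obtain ⟨w1, rfl, w2, w3, rfl, ⟨u, hu, rfl⟩, w4, rfl, h5⟩ := h
    simp only [Sem] at h5
    subst h5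
    exact ⟨a :: (u ++ [a]), W.vis a p u hu, by simp⟩
  · obtain ⟨w1, rfl, w2, w3, rfl, ⟨u, hu, rfl⟩, w4, rfl, h5⟩ := h
    simp only [Sem] at h5
    subst h5
    exact ⟨a :: (u ++ [!a]), W.inv a p u rfl hu, by simp⟩
  · exact sound_SP w h

theorem G_sound {w : List (Option Bool)} (hw : w ∈ G.language) : WP w := by
  refine sound_lang G sem ?_ hw
  intro r hr
  unfold G at hr
  simp only [Set.Finite.mem_toFinset] at hr
  obtain ⟨x, -, rfl⟩ := hr
  exact F_sound _ _ _ _

/-- The terminal string of a word. -/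
def ts (w : List (Option Bool)) : List (Symbol (Option Bool) G.NT) := w.map Symbol.terminal

def D (X : NT) (w : List (Option Bool)) : Prop := G.Derives [Symbol.nonterminal X] (ts w)

theorem step (k : ℕ) (a lo : Bool) (p : List Bool) (hk : k ≤ 10) (hp : p.length ≤ 9) :
    G.Derives [Symbol.nonterminal (F k a lo p).input] (F k a lo p).output :=
  Produces.single ⟨_, F_mem k a lo p hk hp, ContextFreeRule.Rewrites.input_output⟩

theorem D.wrap {X Y : NT} {l r w : List (Option Bool)}
    (h : G.Derives [Symbol.nonterminal X] (ts l ++ [Symbol.nonterminal Y] ++ ts r))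
    (hw : D Y w) : D X (l ++ w ++ r) := by
  have := (hw.append_left (ts l)).append_right (ts r)
  unfold D
  refine h.trans ?_
  have e : ts (l ++ w ++ r) = ts l ++ ts w ++ ts r := by simp only [ts, List.map_append]
  rw [e]
  exact this

theorem D_N {lo : Bool} {p u : List Bool} (h : W lo p u) (hp : p.length ≤ 9) :
    D (NT.N lo p) (u.map some) := by
  induction h with
  | nil w =>
    induction w with
    | nil => exact step 6 true lo [] (by norm_num) (by simp)
    | cons a w ih =>
      have := D.wrap (X := NT.N lo []) (l := [some a]) (r := []) (step 7 a lo [] (by norm_num) (by simp)) ih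
      simpa using this
  | vis a p w _ ih =>
    have hp' : p.length ≤ 9 := by simp at hp; omega
    have := D.wrap (X := NT.N lo (a :: p)) (l := [some a]) (r := [some a])
      (step 8 a lo p (by norm_num) hp') (ih hp')
    simpa using this
  | inv a p w h0 _ ih =>
    subst h0
    have := D.wrap (X := NT.N true p) (l := [some a]) (r := [some (!a)])
      (step 9 a true p (by norm_num) hp) (ih hp)
    simpa using this

theorem D_J {u : List Bool} (h : Idl u) : D NT.J (u.map some) := by
  obtain ⟨lo, p, l, m, r, h1, h2, rfl⟩ := h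
  have h0 : D NT.J (m.map some) := by
    have s5 := step 5 true lo p (by norm_num) h1.length_le
    have e : F 5 true lo p = ⟨NT.J, [nt (NT.N lo p)]⟩ := by simp [F, h1]
    rw [e] at s5
    have := D.wrap (l := []) (r := []) s5 (D_N h2 h1.length_le)
    simpa using this
  have hl : D NT.J ((l ++ m).map some) := by
    induction l with
    | nil => simpa using h0
    | cons a l ih =>
      have := D.wrap (X := NT.J) (l := [some a]) (r := [])
        (step 3 a true [] (by norm_num) (by simp)) ih
      simpa using this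
  induction r using List.reverseRecOn with
  | nil => simpa using hl
  | append_singleton r a ih =>
    have := D.wrap (X := NT.J) (l := []) (r := [some a])
      (step 4 a true [] (by norm_num) (by simp)) ih
    simpa using this

theorem D_P {u : List Bool} (h : u ≠ []) :
    D NT.P (u.map some ++ [none] ++ u.reverse.map some) := by
  induction u with
  | nil => exact absurd rfl h
  | cons a u ih =>
    by_cases hu : u = []
    · subst hu
      exact step 2 a true [] (by norm_num) (by simp)
    · have := D.wrap (X := NT.P) (l := [some a]) (r := [some a])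
        (step 1 a true [] (by norm_num) (by simp))
        (ih hu)
      simpa using this

theorem G_complete {w : List (Option Bool)} (hw : WP w) : w ∈ G.language := by
  obtain ⟨u, v, hu, hv, rfl | ⟨h1, h2⟩, rfl⟩ := hw
  · have := D.wrap (X := NT.S) (l := []) (r := [])
      (step 10 true true [] (by norm_num) (by simp)) (D_P hu)
    rw [List.nil_append, List.append_nil] at this
    exact this
  · have s0 := step 0 true true [] (by norm_num) (by simp)
    have d1 := (D_J h1).append_right [hs, nt NT.J]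
    have e : ts (u.map some ++ [none]) ++ [Symbol.nonterminal NT.J] ++ ts [] =
        ts (u.map some) ++ [Symbol.terminal none, Symbol.nonterminal NT.J] := by
      simp only [ts, List.map_append, List.map_nil, List.append_nil]
      exact List.append_assoc _ _ _
    have d2 := D.wrap (X := NT.S) (Y := NT.J) (l := u.map some ++ [none]) (r := [])
      (s0.trans (by rw [e]; exact d1)) (D_J h2.reverse)
    rw [List.append_nil] at d2
    exact d2

theorem WP_contextFree : Language.IsContextFree ({w | WP w} : Language (Option Bool)) :=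
  ⟨G, by ext w; exact ⟨G_sound, G_complete⟩⟩

end Pool.Agent.Lib.MP_977c67_al
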