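import Pool.Agent.Lib.MP_977c67_al.Semigroup

/-!
Context-free languages are closed under renaming the letters; the zero of the Rees quotient.
-/

set_option autoImplicit false

namespace Pool.Agent.Lib.MP_977c67_al

open ContextFreeGrammar

section Ren

variable {T T' N : Type}

def mapSym (e : T → T') : Symbol T N → Symbol T' N
  | Symbol.terminal a => Symbol.terminal (e a)
  | Symbol.nonterminal X => Symbol.nonterminal X

def mapRule (e : T → T') (r : ContextFreeRule T N) : ContextFreeRule T' N :=
  ⟨r.input, r.output.map (mapSym e)⟩

theorem mapSym_symm (e : T ≃ T') (s : Symbol T N) : mapSym e.symm (mapSym e s) = s := by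
  cases s <;> simp [mapSym]

theorem mapRule_symm (e : T ≃ T') (r : ContextFreeRule T N) :
    mapRule e.symm (mapRule e r) = r := by
  cases r with
  | mk i o =>
    simp only [mapRule, List.map_map, ContextFreeRule.mk.injEq, true_and]
    rw [show (mapSym e.symm ∘ mapSym e : Symbol T N → Symbol T N) = id from
      funext (mapSym_symm e)]
    simp

theorem rewrites_map (e : T → T') {r : ContextFreeRule T N} {u v : List (Symbol T N)}
    (h : r.Rewrites u v) : (mapRule e r).Rewrites (u.map (mapSym e)) (v.map (mapSym e)) := by
  obtain ⟨p, q, rfl, rfl⟩ := h.exists_parts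
  have := ContextFreeRule.rewrites_of_exists_parts (mapRule e r) (p.map (mapSym e))
    (q.map (mapSym e))
  simpa [mapRule, mapSym] using this

open Classical in
noncomputable def mapGr (e : T → T') (g : ContextFreeGrammar T) : ContextFreeGrammar T' :=
  ⟨g.NT, g.initial, g.rules.image (mapRule e)⟩

theorem derives_map (e : T → T') (g : ContextFreeGrammar T) {u v : List (Symbol T g.NT)}
    (h : g.Derives u v) : (mapGr e g).Derives (u.map (mapSym e)) (v.map (mapSym e)) := by
  classical
  induction h with
  | refl => exact Derives.refl _
  | tail _ hp ih =>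
    obtain ⟨r, hr, hrw⟩ := hp
    exact ih.trans_produces ⟨mapRule e r, Finset.mem_image_of_mem _ hr, rewrites_map e hrw⟩

theorem derives_unmap (e : T ≃ T') (g : ContextFreeGrammar T)
    {u v : List (Symbol T' (mapGr e g).NT)}
    (h : (mapGr e g).Derives u v) : g.Derives (u.map (mapSym e.symm)) (v.map (mapSym e.symm)) := by
  classical
  induction h with
  | refl => exact Derives.refl _
  | tail _ hp ih =>
    obtain ⟨r, hr, hrw⟩ := hp
    obtain ⟨r', hr', rfl⟩ := Finset.mem_image.1 hr
    have := rewrites_map e.symm hrw
    refine ih.trans_produces ⟨r', hr', ?_⟩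
    have e2 := mapRule_symm (N := g.NT) e r'
    rw [← e2]
    exact this

theorem map_terminal (e : T → T') (w : List T) :
    (w.map (Symbol.terminal : T → Symbol T N)).map (mapSym e) = (w.map e).map Symbol.terminal := by
  simp [List.map_map, Function.comp_def, mapSym]

theorem isContextFree_rename (e : T ≃ T') {L : Language T} (h : L.IsContextFree) :
    Language.IsContextFree ({w | w.map e.symm ∈ L} : Language T') := by
  obtain ⟨g, rfl⟩ := h
  refine ⟨mapGr e g, ?_⟩
  ext w
  constructor
  · intro hw
    have h1 := derives_unmap e g ((mem_language_iff _ w).1 hw)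
    refine (mem_language_iff g _).2 ?_
    have h2 := map_terminal (N := g.NT) e.symm w
    rw [← h2]
    exact h1
  · intro hw
    have h1 := derives_map e g ((mem_language_iff g _).1 hw)
    refine (mem_language_iff _ w).2 ?_
    have h2 := map_terminal (N := g.NT) e (w.map e.symm)
    have h3 : (w.map e.symm).map e = w := by simp [List.map_map]
    rw [h3] at h2
    exact (congrArg (fun z : List (Symbol T' g.NT) =>
      (mapGr e g).Derives [Symbol.nonterminal (mapGr e g).initial] z) h2).mp h1

end Ren

theorem exists_idl : ∃ u : FreeSemigroup Bool, Idl (toL u) := by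
  obtain ⟨N, hN⟩ := lpow_idl (w := toL (FreeSemigroup.of true)) (by simp [toL])
  refine ⟨pw (FreeSemigroup.of true) N, ?_⟩
  rw [toL_pw, lpow]
  exact hN.append_right _

theorem xs_one : xs 1 = true := by
  have := (xs_good 0).1
  simpa using this

theorem xs_two : xs 2 = false := by
  have := (xs_good 0).2
  simpa using this

theorem not_idl_letter (a : Bool) : ¬ Idl [a] := by
  intro h
  have h2 := seg_xs_not_idl 2
  have e : seg xs 1 2 = [true, false] := by
    simp only [seg]
    rw [xs_one, show (1 : ℤ) + 1 = 2 by norm_num, xs_two]
  rw [e] at h2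
  cases a
  · exact h2 (h.append_left [true])
  · exact h2 (h.append_right [false])

theorem gen_injective : Function.Injective gen := by
  intro a b h
  rcases mk_eq.1 h with h | ⟨h, -⟩
  · exact congrArg FreeSemigroup.head h
  · exact absurd h (not_idl_letter a)

end Pool.Agent.Lib.MP_977c67_al
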