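import Pool.Agent.Lib.MP_977c67_al.Grammar

/-!
The Rees quotient of the free semigroup on two letters by the ideal `Idl`.
-/

set_option autoImplicit false

namespace Pool.Agent.Lib.MP_977c67_al

def toL (u : FreeSemigroup Bool) : List Bool := u.head :: u.tail

theorem toL_mul (u v : FreeSemigroup Bool) : toL (u * v) = toL u ++ toL v := rfl

theorem toL_inj {u v : FreeSemigroup Bool} (h : toL u = toL v) : u = v := by
  cases u; cases v
  simp only [toL, List.cons.injEq] at h
  obtain ⟨rfl, rfl⟩ := h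
  rfl

/-- The Rees congruence. -/
def rc : Con (FreeSemigroup Bool) where
  r u v := u = v ∨ (Idl (toL u) ∧ Idl (toL v))
  iseqv := by
    refine ⟨fun _ => Or.inl rfl, ?_, ?_⟩
    · rintro u v (rfl | ⟨h1, h2⟩)
      · exact Or.inl rfl
      · exact Or.inr ⟨h2, h1⟩
    · rintro u v w (rfl | ⟨h1, h2⟩) (rfl | ⟨h3, h4⟩)
      · exact Or.inl rfl
      · exact Or.inr ⟨h3, h4⟩
      · exact Or.inr ⟨h1, h2⟩
      · exact Or.inr ⟨h1, h4⟩
  mul' := by
    rintro w x y z (rfl | ⟨h1, h2⟩) (rfl | ⟨h3, h4⟩)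
    · exact Or.inl rfl
    · exact Or.inr ⟨by rw [toL_mul]; exact h3.append_left _, by rw [toL_mul]; exact h4.append_left _⟩
    · exact Or.inr ⟨by rw [toL_mul]; exact h1.append_right _,
        by rw [toL_mul]; exact h2.append_right _⟩
    · exact Or.inr ⟨by rw [toL_mul]; exact h1.append_right _,
        by rw [toL_mul]; exact h2.append_right _⟩

abbrev SG : Type := rc.Quotient

def mk (u : FreeSemigroup Bool) : SG := (u : rc.Quotient)

theorem mk_mul (u v : FreeSemigroup Bool) : mk (u * v) = mk u * mk v := rfl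

theorem mk_eq {u v : FreeSemigroup Bool} :
    mk u = mk v ↔ u = v ∨ (Idl (toL u) ∧ Idl (toL v)) := Con.eq rc

theorem mk_surj (x : SG) : ∃ u, mk u = x := Quotient.exists_rep x

def gen (a : Bool) : SG := mk (FreeSemigroup.of a)

theorem prod_gen (a : Bool) (l : List Bool) :
    ((a :: l).map (fun a => ((gen a : SG) : WithOne SG))).prod = (mk ⟨a, l⟩ : SG) := by
  induction l generalizing a with
  | nil => simp [gen]; rfl
  | cons b l ih =>
    rw [List.map_cons, List.prod_cons, ih b, ← WithOne.coe_mul, gen, ← mk_mul]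
    rfl

theorem SG_infinite : Infinite SG := by
  refine Infinite.of_injective (fun n : ℕ => mk ⟨xs 1, seg xs (1 + 1) n⟩) ?_
  intro m n h
  rcases mk_eq.1 h with h | ⟨h, -⟩
  · have := congrArg (fun u : FreeSemigroup Bool => u.tail.length) h
    simpa [seg_length] using this
  · exact absurd h (seg_xs_not_idl (m + 1))

def pw (u : FreeSemigroup Bool) : ℕ → FreeSemigroup Bool
  | 0 => u
  | k + 1 => pw u k * u

theorem pw_add (u : FreeSemigroup Bool) (a b : ℕ) : pw u a * pw u b = pw u (a + b + 1) := by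
  induction b with
  | zero => rfl
  | succ b ih => rw [pw, ← mul_assoc, ih]; rfl

theorem toL_pw (u : FreeSemigroup Bool) (k : ℕ) : toL (pw u k) = lpow (toL u) (k + 1) := by
  induction k with
  | zero => simp [pw, lpow]
  | succ k ih => rw [pw, toL_mul, ih]; rfl

theorem SG_periodic (x : SG) : (Subsemigroup.closure ({x} : Set SG) : Set SG).Finite := by
  obtain ⟨u, rfl⟩ := mk_surj x
  obtain ⟨N, hN⟩ := lpow_idl (w := toL u) (by simp [toL])
  have hI : ∀ k, Idl (toL (pw u (N + k))) := by
    intro k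
    induction k with
    | zero => rw [add_zero, toL_pw, lpow]; exact hN.append_right _
    | succ k ih => rw [← add_assoc, pw, toL_mul]; exact ih.append_right _
  refine ((Set.finite_Iic N).image (fun k => mk (pw u k))).subset ?_
  intro z hz
  have : ∃ k, z = mk (pw u k) := by
    induction hz using Subsemigroup.closure_induction with
    | mem z hz => exact ⟨0, hz⟩
    | mul a b _ _ iha ihb =>
      obtain ⟨k, rfl⟩ := iha
      obtain ⟨l, rfl⟩ := ihb
      exact ⟨k + l + 1, by rw [← mk_mul, pw_add]⟩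
  obtain ⟨k, rfl⟩ := this
  by_cases hk : k ≤ N
  · exact ⟨k, hk, rfl⟩
  · obtain ⟨e, rfl⟩ := Nat.exists_eq_add_of_le (le_of_not_ge hk)
    exact ⟨N, Set.mem_Iic.2 le_rfl, mk_eq.2 (Or.inr ⟨hI 0, hI e⟩)⟩

theorem SG_gen : Subsemigroup.closure (Set.range gen) = ⊤ := by
  rw [eq_top_iff]
  intro x _
  obtain ⟨u, rfl⟩ := mk_surj x
  induction u using FreeSemigroup.recOnMul with
  | ih1 a => exact Subsemigroup.subset_closure ⟨a, rfl⟩
  | ih2 a v h1 h2 =>
    rw [mk_mul]
    exact Subsemigroup.mul_mem _ (h1 trivial) (h2 trivial)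

theorem prod_eq_iff {u v : List Bool} (hu : u ≠ []) (hv : v ≠ []) :
    (u.map (fun a => ((gen a : SG) : WithOne SG))).prod =
      (v.map (fun a => ((gen a : SG) : WithOne SG))).prod ↔ u = v ∨ (Idl u ∧ Idl v) := by
  obtain ⟨a, u, rfl⟩ := List.exists_cons_of_ne_nil hu
  obtain ⟨b, v, rfl⟩ := List.exists_cons_of_ne_nil hv
  rw [prod_gen, prod_gen, WithOne.coe_inj, mk_eq]
  constructor
  · rintro (h | h)
    · exact Or.inl (congrArg toL h)
    · exact Or.inr h
  · rintro (h | h)
    · exact Or.inl (toL_inj h)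
    · exact Or.inr h

end Pool.Agent.Lib.MP_977c67_al
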