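import Pool.Agent.Lib.MP_977c67_al.Comb

/-!
The ideal `Idl` of the free monoid on two letters, and its properties.
-/

set_option autoImplicit false

namespace Pool.Agent.Lib.MP_977c67_al

/-- Word version of `V`: reading the word from both ends inwards one sees the pattern. -/
inductive W (lo : Bool) : List Bool → List Bool → Prop
  | nil (w : List Bool) : W lo [] w
  | vis (a : Bool) (p w : List Bool) : W lo p w → W lo (a :: p) (a :: (w ++ [a]))
  | inv (a : Bool) (p w : List Bool) : lo = true → W lo p w → W lo p (a :: (w ++ [!a]))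

def IsPat (lo : Bool) (p : List Bool) : Prop :=
  (lo = true ∧ p ∈ loosePats) ∨ (lo = false ∧ p ∈ strictPats)

/-- The ideal: words with a factor showing one of the patterns. -/
def Idl (u : List Bool) : Prop :=
  ∃ lo p l m r, IsPat lo p ∧ W lo p m ∧ u = l ++ m ++ r

theorem W.reverse {lo : Bool} {p w : List Bool} (h : W lo p w) : W lo p w.reverse := by
  induction h with
  | nil w => exact W.nil _
  | vis a p w _ ih => simpa using W.vis a p _ ih
  | inv a p w h0 _ ih => simpa using W.inv (!a) p _ h0 ih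

theorem W.ne_nil {lo : Bool} {p w : List Bool} (h : W lo p w) (hp : p ≠ []) : w ≠ [] := by
  cases h with
  | nil w => exact absurd rfl hp
  | vis a p w _ => simp
  | inv a p w h0 _ => simp

theorem IsPat.ne_nil {lo : Bool} {p : List Bool} (h : IsPat lo p) : p ≠ [] := by
  rintro rfl
  rcases h with ⟨-, h⟩ | ⟨-, h⟩ <;> revert h <;> decide

theorem IsPat.length_le {lo : Bool} {p : List Bool} (h : IsPat lo p) : p.length ≤ 9 := by
  have h1 : ∀ p ∈ loosePats, p.length ≤ 9 := by decide
  have h2 : ∀ p ∈ strictPats, p.length ≤ 9 := by decide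
  rcases h with ⟨-, h⟩ | ⟨-, h⟩
  · exact h1 p h
  · exact h2 p h

theorem Idl.reverse {u : List Bool} (h : Idl u) : Idl u.reverse := by
  obtain ⟨lo, p, l, m, r, h1, h2, rfl⟩ := h
  exact ⟨lo, p, r.reverse, m.reverse, l.reverse, h1, h2.reverse, by simp⟩

theorem Idl.ne_nil {u : List Bool} (h : Idl u) : u ≠ [] := by
  obtain ⟨lo, p, l, m, r, h1, h2, rfl⟩ := h
  have := h2.ne_nil h1.ne_nil
  simp [this]

theorem Idl.append_left {u : List Bool} (h : Idl u) (v : List Bool) : Idl (v ++ u) := by
  obtain ⟨lo, p, l, m, r, h1, h2, rfl⟩ := h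
  exact ⟨lo, p, v ++ l, m, r, h1, h2, by simp⟩

theorem Idl.append_right {u : List Bool} (h : Idl u) (v : List Bool) : Idl (u ++ v) := by
  obtain ⟨lo, p, l, m, r, h1, h2, rfl⟩ := h
  exact ⟨lo, p, l, m, r ++ v, h1, h2, by simp⟩

/-- The factor of `y` of length `n` starting at `i`. -/
def seg (y : ℤ → Bool) : ℤ → ℕ → List Bool
  | _, 0 => []
  | i, n + 1 => y i :: seg y (i + 1) n

theorem seg_length (y : ℤ → Bool) (i : ℤ) (n : ℕ) : (seg y i n).length = n := by
  induction n generalizing i with
  | zero => rfl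
  | succ n ih => simp [seg, ih]

theorem seg_add (y : ℤ → Bool) (i : ℤ) (m n : ℕ) :
    seg y i (m + n) = seg y i m ++ seg y (i + m) n := by
  induction m generalizing i with
  | zero => simp [seg]
  | succ m ih =>
    rw [show m + 1 + n = (m + n) + 1 by ring]
    simp only [seg, ih, List.cons_append]
    congr 3
    push_cast; ring

theorem seg_two (y : ℤ → Bool) (i : ℤ) (n : ℕ) :
    seg y i (n + 2) = y i :: (seg y (i + 1) n ++ [y (i + n + 1)]) := by
  rw [show n + 2 = (n + 1) + 1 by ring, seg, seg_add]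
  simp only [seg]
  congr 4
  ring

theorem seg_shift {y : ℤ → Bool} {k : ℤ} (hk : ∀ t, y (t + k) = y t) (i : ℤ) (n : ℕ) :
    seg y (i + k) n = seg y i n := by
  induction n generalizing i with
  | zero => rfl
  | succ n ih =>
    simp only [seg, hk]
    rw [show i + k + 1 = (i + 1) + k by ring, ih]

theorem seg_ends {y : ℤ → Bool} {i : ℤ} {n : ℕ} {a b : Bool} {w : List Bool}
    (h : a :: (w ++ [b]) = seg y i n) :
    n = w.length + 2 ∧ y i = a ∧ w = seg y (i + 1) w.length ∧ y (i + w.length + 1) = b := by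
  have hn : n = w.length + 2 := by
    have := congrArg List.length h
    rw [seg_length] at this
    simp at this
    omega
  rw [hn, seg_two] at h
  simp only [List.cons.injEq] at h
  obtain ⟨h1, h2⟩ := h
  have h3 := List.append_inj h2 (by rw [seg_length])
  exact ⟨hn, h1.symm, h3.1, by simpa using h3.2.symm⟩

theorem V_of_W {y : ℤ → Bool} {lo : Bool} {p w : List Bool} (h : W lo p w) :
    ∀ (i : ℤ) (n : ℕ), w = seg y i n → V y lo p i (i + n - 1) := by
  induction h with
  | nil w => intro i n _; exact V.nil _ _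
  | vis a p w _ ih =>
    intro i n hw
    obtain ⟨hn, h1, h2, h3⟩ := seg_ends hw
    refine V.vis a p _ _ h1 ?_ ((ih _ _ h2).congr rfl ?_)
    · rw [← h3, hn]; congr 1; push_cast; ring
    · rw [hn]; push_cast; ring
  | inv a p w h0 _ ih =>
    intro i n hw
    obtain ⟨hn, h1, h2, h3⟩ := seg_ends hw
    refine V.inv p _ _ h0 ?_ ((ih _ _ h2).congr rfl ?_)
    · have : y (i + n - 1) = !a := by rw [← h3, hn]; congr 1; push_cast; ring
      rw [this, h1]; cases a <;> simp
    · rw [hn]; push_cast; ring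

theorem W_of_V {y : ℤ → Bool} {lo : Bool} {p : List Bool} {i j : ℤ} (h : V y lo p i j) :
    ∃ m : ℕ, ∀ (n : ℕ) (k : ℤ), (∀ t, y (t + k) = y t) → (n : ℤ) = j + k - i + 1 → 2 * m ≤ n →
      W lo p (seg y i n) := by
  induction h with
  | nil i j => exact ⟨0, fun _ _ _ _ _ => W.nil _⟩
  | vis a p i j h1 h2 _ ih =>
    obtain ⟨m, hm⟩ := ih
    refine ⟨m + 1, fun n k hk hn hmn => ?_⟩
    obtain ⟨n', rfl⟩ : ∃ n', n = n' + 2 := ⟨n - 2, by omega⟩
    rw [seg_two, h1, show i + n' + 1 = j + k by push_cast at hn; omega, hk, h2]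
    exact W.vis a p _ (hm n' k hk (by push_cast at hn; omega) (by omega))
  | inv p i j h0 h1 _ ih =>
    obtain ⟨m, hm⟩ := ih
    refine ⟨m + 1, fun n k hk hn hmn => ?_⟩
    obtain ⟨n', rfl⟩ : ∃ n', n = n' + 2 := ⟨n - 2, by omega⟩
    have e : y j = !(y i) := by cases e1 : y i <;> cases e2 : y j <;> simp_all
    rw [seg_two, show i + n' + 1 = j + k by push_cast at hn; omega, hk, e]
    exact W.inv _ p _ h0 (hm n' k hk (by push_cast at hn; omega) (by omega))

theorem seg_xs_not_idl (n : ℕ) : ¬ Idl (seg xs 1 n) := by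
  rintro ⟨lo, p, l, m, r, h1, h2, h3⟩
  have hn : n = l.length + m.length + r.length := by
    have := congrArg List.length h3
    rw [seg_length] at this
    simpa [add_assoc] using this
  rw [hn, seg_add, seg_add] at h3
  have h4 := List.append_inj h3 (by simp [seg_length])
  have h5 := List.append_inj h4.1 (by simp [seg_length])
  have h6 := V_of_W (y := xs) h2 _ _ h5.2.symm
  rcases h1 with ⟨rfl, h1⟩ | ⟨rfl, h1⟩
  · exact xs_not_loose (2 * l.length + m.length + 1) (by omega) p h1 _ _
      (by push_cast; ring) h6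
  · exact xs_not_strict p h1 _ _ h6

theorem periodic_idl {y : ℤ → Bool} {P : ℕ} (hP : 0 < P) (hy : Per y P) :
    ∃ N : ℕ, Idl (seg y 0 (N * P)) := by
  have key : ∃ lo p i j, IsPat lo p ∧ V y lo p i j := by
    rcases periodic_bad P hP y hy with ⟨p, hp, i, j, h⟩ | ⟨p, hp, i, j, h⟩
    · exact ⟨true, p, i, j, Or.inl ⟨rfl, hp⟩, h⟩
    · exact ⟨false, p, i, j, Or.inr ⟨rfl, hp⟩, h⟩
  obtain ⟨lo, p, i, j, hp, h⟩ := key
  obtain ⟨m, hm⟩ := W_of_V h
  have hP' : (0 : ℤ) < P := by exact_mod_cast hP
  set c : ℤ := 2 * m + |j - i| with hc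
  have hc0 : 0 ≤ c := by positivity
  have hcP : c ≤ c * P := by nlinarith
  have habs : -(j - i) ≤ |j - i| := neg_le_abs _
  have hn0 : 2 * (m : ℤ) ≤ j + c * P - i + 1 := by linarith
  obtain ⟨n, hn⟩ : ∃ n : ℕ, (n : ℤ) = j + c * P - i + 1 :=
    ⟨(j + c * P - i + 1).toNat, Int.toNat_of_nonneg (by omega)⟩
  have hw := hm n (c * P) (fun t => hy t c) hn (by omega)
  obtain ⟨r, hr⟩ : ∃ r : ℕ, (r : ℤ) = i % P :=
    ⟨(i % P).toNat, Int.toNat_of_nonneg (Int.emod_nonneg _ hP'.ne')⟩
  have hi : i = r + (i / P) * P := by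
    have := Int.emod_add_ediv_mul i P
    linarith
  have hw' : W lo p (seg y r n) := by
    rw [← seg_shift (k := (i / P) * P) (fun t => hy t _), ← hi]; exact hw
  have hle : r + n ≤ (r + n) * P := Nat.le_mul_of_pos_right _ hP
  obtain ⟨e, he⟩ := Nat.exists_eq_add_of_le hle
  refine ⟨r + n, lo, p, seg y 0 r, seg y r n, seg y (0 + (r + n : ℕ)) e, hp, hw', ?_⟩
  rw [he, seg_add, seg_add]
  simp

/-- The periodic extension of a word. -/
def ext (w : List Bool) : ℤ → Bool := fun t => w.getD (t % (w.length : ℤ)).toNat true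

theorem ext_per (w : List Bool) : Per (ext w) w.length := by
  intro t m
  unfold ext
  rw [Int.add_mul_emod_self_right]

theorem seg_eq_of_get {y : ℤ → Bool} (w : List Bool) (i : ℤ)
    (h : ∀ k : ℕ, k < w.length → y (i + k) = w.getD k true) : seg y i w.length = w := by
  induction w generalizing i with
  | nil => rfl
  | cons a w ih =>
    simp only [List.length_cons, seg]
    have h0 := h 0 (by simp)
    simp only [Nat.cast_zero, add_zero, List.getD_cons_zero] at h0
    rw [h0, ih]
    intro k hk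
    have := h (k + 1) (by simpa using hk)
    rw [List.getD_cons_succ] at this
    rw [← this]; congr 1; push_cast; ring

theorem seg_ext (w : List Bool) : seg (ext w) 0 w.length = w := by
  apply seg_eq_of_get
  intro k hk
  unfold ext
  rw [zero_add, Int.emod_eq_of_lt (by omega) (by omega)]
  simp

/-- Powers of a word. -/
def lpow (w : List Bool) : ℕ → List Bool
  | 0 => []
  | k + 1 => lpow w k ++ w

theorem lpow_eq (w : List Bool) (k : ℕ) : lpow w k = seg (ext w) 0 (k * w.length) := by
  induction k with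
  | zero => simp [lpow, seg]
  | succ k ih =>
    rw [lpow, ih, add_mul, one_mul, seg_add]
    congr 1
    rw [seg_shift (y := ext w) (k := ((k * w.length : ℕ) : ℤ))
      (fun t => by push_cast; exact ext_per w t k), seg_ext]

theorem lpow_idl {w : List Bool} (hw : w ≠ []) : ∃ N, Idl (lpow w N) := by
  obtain ⟨N, hN⟩ := periodic_idl (List.length_pos_iff.2 hw) (ext_per w)
  exact ⟨N, by rwa [lpow_eq]⟩

end Pool.Agent.Lib.MP_977c67_al
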